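import Pool.Agent.Helper20_F5H.FXAsym

/-!
MP_f5cbfa_nt, block N, row FXA, second half: dyadic classes, sorting, numbers.
`fxa_of : DU1Stmt → DU2Stmt → FRStmt → FXAStmt`; `FRStmt` is the frame half (helper10).
-/

set_option autoImplicit false

open MeasureTheory Filter Topology
open scoped ENNReal

namespace Pool.Agent.F5H.BN.H20

open Pool.Agent.BTL Pool.Agent.F5S Pool.Agent.F5H Pool.Agent.Helper48_F5

/-- the frame half (same text as in helper10's file) -/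
def FRStmt : Prop := ∃ a : ℕ, ∀ T Q : ℝ, 1 ≤ T → 2 ≤ Q → Q ^ a ≤ T ^ (1 / 100000 : ℝ) →
  ∀ A ∈ KM Q, ∃ g : ℤ × ℤ →+ ℂ, Helper68_F5.Sep 1 g ∧ H9.JG (Q ^ a) g ∧
    (∀ z : ℤ × ℤ, ‖rc z‖ ≤ ‖g z‖ ∧ ‖g z‖ ≤ Q ^ 3 * ‖rc z‖) ∧
    ∀ (R₁ : ℝ) (h v : Z6), 0 ≤ R₁ → (∀ l, t3 (r3 h) l ≠ 0) →
      volume {m : R6 | NR Q T R₁ A (r3 h) (r3 v) m} ≤
        volume {m : ℂ × ℂ × ℂ | NRC (Q ^ a) (Q * T) R₁ g h v m}

theorem NRC_mono {P P' T R₁ : ℝ} (hP : P ≤ P') (hR : 0 ≤ R₁) {g : ℤ × ℤ →+ ℂ} {h v : Z6}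
    {m : ℂ × ℂ × ℂ} (w : NRC P T R₁ g h v m) : NRC P' T R₁ g h v m := by
  have hmax : ∀ i j, 0 ≤ max ‖g3 g h i‖ ‖g3 g h j‖ := fun i j =>
    (norm_nonneg _).trans (le_max_left _ _)
  refine ⟨fun l => (w.an l).trans hP, fun i j => ?_, fun i j hij => ?_, ?_, fun hq i j => ?_⟩
  · exact (w.tb i j).trans (mul_le_mul_of_nonneg_right hP (hmax i j))
  · exact (w.ds i j hij).trans (mul_le_mul_of_nonneg_right hP (abs_nonneg _))
  · obtain ⟨ν, h1, h2⟩ := w.ry
    exact ⟨ν, h1.trans (mul_le_mul_of_nonneg_right hP hR), fun l => (h2 l).trans hP⟩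
  · refine (w.wn (hP.trans hq) i j).trans (mul_le_mul_of_nonneg_right hP ?_)
    have := hmax i j
    positivity

theorem JG_mono {K K' : ℝ} (hK : K ≤ K') {g : ℤ × ℤ →+ ℂ} (w : H9.JG K g) : H9.JG K' g := by
  intro q hq s W hW hs S hS
  exact (w q hq s W hW hs S hS).trans (mul_le_mul_of_nonneg_right hK (by linarith))

/-- the dyadic class of a number `≥ 1` -/
theorem cls {x : ℝ} (hx : 1 ≤ x) : ∃ k : ℕ, (2 : ℝ) ^ k / 2 < x ∧ x ≤ 2 ^ k := by
  classical
  have hex : ∃ k : ℕ, x ≤ (2 : ℝ) ^ k := by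
    obtain ⟨k, hk⟩ := pow_unbounded_of_one_lt x (by norm_num : (1 : ℝ) < 2)
    exact ⟨k, hk.le⟩
  refine ⟨Nat.find hex, ?_, Nat.find_spec hex⟩
  rcases Nat.eq_zero_or_pos (Nat.find hex) with h0 | h0
  · rw [h0]; norm_num; linarith
  · have h1 := Nat.find_min hex (Nat.sub_lt h0 one_pos)
    push Not at h1
    have h2 : (2 : ℝ) ^ Nat.find hex = 2 ^ (Nat.find hex - 1) * 2 := by
      rw [← pow_succ]; congr 1; omega
    rw [h2]; linarith

/-- side conditions, symmetric in `a b c` -/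
structure Sd (X Y p p' r : ℝ) (md : Prop) (a b c : ℝ) : Prop where
  h1 : 1 ≤ a ∧ 1 ≤ b ∧ 1 ≤ c
  hX : a ≤ X ∧ b ≤ X ∧ c ≤ X
  hY : (a ≤ Y ∧ b ≤ Y) ∨ (a ≤ Y ∧ c ≤ Y) ∨ (b ≤ Y ∧ c ≤ Y)
  hp : p ≤ a * b * c ∧ a * b * c ≤ p'
  iso : md → a ≤ r * b ∧ b ≤ r * a ∧ a ≤ r * c ∧ c ≤ r * a ∧ b ≤ r * c ∧ c ≤ r * b
  ani : ¬ md → 16 * a < b ∨ 16 * b < a ∨ 16 * a < c ∨ 16 * c < a ∨ 16 * b < c ∨ 16 * c < b

theorem Sd.s01 {X Y p p' r : ℝ} {md : Prop} {a b c : ℝ} (w : Sd X Y p p' r md a b c) :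
    Sd X Y p p' r md b a c := by
  obtain ⟨h1, hX, hY, hp, iso, ani⟩ := w
  refine ⟨⟨h1.2.1, h1.1, h1.2.2⟩, ⟨hX.2.1, hX.1, hX.2.2⟩, by tauto, ?_, fun h => ?_, fun h => ?_⟩
  · rw [mul_comm b a]; exact hp
  · have := iso h; tauto
  · have := ani h; tauto

theorem Sd.s12 {X Y p p' r : ℝ} {md : Prop} {a b c : ℝ} (w : Sd X Y p p' r md a b c) :
    Sd X Y p p' r md a c b := by
  obtain ⟨h1, hX, hY, hp, iso, ani⟩ := w
  refine ⟨⟨h1.1, h1.2.2, h1.2.1⟩, ⟨hX.1, hX.2.2, hX.2.1⟩, by tauto, ?_, fun h => ?_, fun h => ?_⟩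
  · have : a * c * b = a * b * c := by ring
    rw [this]; exact hp
  · have := iso h; tauto
  · have := ani h; tauto

theorem T_pos {T Q : ℝ} (hQ : 2 ≤ Q) (h : 1 ≤ Q * Lx T) : 0 < T := by
  by_contra hT
  push Not at hT
  have h1 : Lx T ≤ 0 := by
    unfold Lx
    rcases hT.lt_or_eq with h1 | h1
    · rw [Real.rpow_def_of_neg h1]
      have h2 : Real.cos (277 / 500 * Real.pi) ≤ 0 := by
        refine (Real.cos_neg_of_pi_div_two_lt_of_lt ?_ ?_).le
        · nlinarith [Real.pi_pos]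
        · nlinarith [Real.pi_pos]
      exact mul_nonpos_of_nonneg_of_nonpos (Real.exp_pos _).le h2
    · rw [h1, Real.zero_rpow (by norm_num)]
  nlinarith

theorem fxa_of (DU1 : DU1Stmt) (DU2 : DU2Stmt) (FR : FRStmt) : FXAStmt := by
  classical
  obtain ⟨a₀, FR⟩ := FR
  obtain ⟨c₁, DU1⟩ := DU1
  obtain ⟨c₂, DU2⟩ := DU2
  obtain ⟨b, hb⟩ : ∃ b : ℕ, b = a₀ + 50 := ⟨_, rfl⟩
  obtain ⟨cc, hcc⟩ : ∃ cc : ℕ, cc = b * (c₁ + c₂) + b + 100 := ⟨_, rfl⟩
  refine ⟨cc, ?_⟩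
  intro T Q hQ hlog hQT A V H hA hV1 hVL hV2 hfam
  have hQ0 : 0 < Q := by linarith
  have hT0 : 0 < T := T_pos hQ ((hV1 0).trans (hVL 0))
  have pQ : ∀ {k l : ℕ}, k ≤ l → Q ^ k ≤ Q ^ l := fun h => pw hQ h
  have hT1 : 1 ≤ T := by
    by_contra hlt
    push Not at hlt
    have h1 := Real.rpow_lt_one hT0.le hlt (by norm_num : (0 : ℝ) < 1 / 100000)
    have h2 : 1 ≤ Q ^ cc := one_le_pow₀ (by linarith)
    linarith
  have PL : ∀ (k : ℕ) (x y : ℝ), k ≤ cc → x + 1 / 100000 ≤ y → Q ^ k * T ^ x ≤ T ^ y :=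
    fun k x y hk hxy => pl hQ hT1 hQT hk hxy
  obtain ⟨g, hsep, hJG, hgn, hvol⟩ := FR T Q hT1 hQ
    ((pQ (by omega)).trans hQT) A hA
  -- parameters
  obtain ⟨P, hP⟩ : ∃ P : ℝ, P = Q ^ b := ⟨_, rfl⟩
  obtain ⟨T', hT'⟩ : ∃ T' : ℝ, T' = Q * T := ⟨_, rfl⟩
  have hTT' : T ≤ T' := by rw [hT']; nlinarith
  have hT'0 : 0 < T' := by linarith
  have hPQ : ∀ k : ℕ, k ≤ 50 → Q ^ k ≤ P := fun k hk => by rw [hP]; exact pQ (by omega)
  have hP2 : 2 ≤ P := by
    have := hPQ 1 (by norm_num)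
    rw [pow_one] at this
    linarith
  have hP0 : 0 < P := by linarith
  have hlogP : Real.log T' ≤ P := by
    rw [hT', Real.log_mul hQ0.ne' hT0.ne']
    have h1 := Real.log_le_sub_one_of_pos hQ0
    have h2 := hPQ 2 (by norm_num)
    nlinarith
  have hpw : ∀ k : ℕ, k ≤ c₁ + c₂ → P ^ k ≤ T' ^ (1 / 100000 : ℝ) := by
    intro k hk
    rw [hP, ← pow_mul]
    have h1 : b * k ≤ cc := by
      have := Nat.mul_le_mul_left b hk
      omega
    exact ((pQ h1).trans hQT).trans (Real.rpow_le_rpow hT0.le hTT' (by norm_num))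
  have hJGP : H9.JG P g := JG_mono (by rw [hP]; exact pQ (by omega)) hJG
  -- the length
  obtain ⟨R₁, hR₁⟩ : ∃ R₁ : ℝ, R₁ = rr Q T V := ⟨_, rfl⟩
  obtain ⟨md, hmd⟩ : ∃ md : Prop, md = ∀ i j, V i ≤ Q ^ 10 * V j := ⟨_, rfl⟩
  have hbare : 1 ≤ bare T V := le_max_left _ _
  have hR1 : 1 ≤ R₁ := by
    rw [hR₁]; unfold rr
    split_ifs
    · have : 1 ≤ T ^ (1 / 50 : ℝ) := Real.one_le_rpow hT1 (by norm_num)
      nlinarith
    · exact hbare
  obtain ⟨B, hB⟩ : ∃ B : ℝ, B = P ^ (c₁ + c₂) * R₁ := ⟨_, rfl⟩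
  have hB0 : 0 ≤ B := by rw [hB]; positivity
  -- products
  obtain ⟨p, hp⟩ : ∃ p : ℝ, p = V 0 * V 1 * V 2 := ⟨_, rfl⟩
  have hV0 : ∀ l, 0 < V l := fun l => lt_of_lt_of_le one_pos (hV1 l)
  have hp0 : 0 < p := by
    rw [hp]; exact mul_pos (mul_pos (hV0 0) (hV0 1)) (hV0 2)
  have hbareT : bare T V = max 1 ((p / T) ^ 2) := by rw [hp]; rfl
  have hLT : Lx T ≤ Lx T' := by
    unfold Lx
    exact Real.rpow_le_rpow hT0.le hTT' (by norm_num)
  have hL0 : 0 < Lx T := Real.rpow_pos_of_pos hT0 _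
  -- sorted classes
  have base : ∀ a b c : ℝ, Sd (4 * Q ^ 4 * Lx T) (4 * Q ^ 4 * T ^ (677 / 2000 : ℝ)) p
      ((4 * Q ^ 3) ^ 3 * p) (4 * Q ^ 13) md a b c → b ≤ a → c ≤ b →
      Gd (ff Q T R₁ A) g (ENNReal.ofReal B) a b c := by
    intro a b c w hba hcb H hH
    obtain ⟨⟨ha1, hb1, hc1⟩, ⟨haX, -, -⟩, hY, ⟨hpl, hpu⟩, iso, ani⟩ := w
    obtain ⟨V', hV'⟩ : ∃ V' : Fin 3 → ℝ, V' = ![a, b, c] := ⟨_, rfl⟩
    have v0 : V' 0 = a := by rw [hV']; rfl
    have v1 : V' 1 = b := by rw [hV']; rfl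
    have v2 : V' 2 = c := by rw [hV']; rfl
    have hbY : b ≤ 4 * Q ^ 4 * T ^ (677 / 2000 : ℝ) := by
      rcases hY with h | h | h
      · exact h.2
      · exact hba.trans h.1
      · exact h.1
    have h4 : 4 * Q ^ 4 ≤ P := by
      have h1 := pw2 hQ 4 2
      norm_num at h1
      exact h1.trans (hPQ 6 (by norm_num))
    have hFam : FamV P T' V' := by
      refine ⟨by rw [v2]; exact hc1, by rw [v2, v1]; exact hcb, by rw [v1, v0]; exact hba, ?_, ?_⟩
      · rw [v0]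
        exact haX.trans (mul_le_mul h4 hLT hL0.le hP0.le)
      · rw [v1]
        refine hbY.trans (mul_le_mul h4 ?_ (Real.rpow_nonneg hT0.le _) hP0.le)
        exact Real.rpow_le_rpow hT0.le hTT' (by norm_num)
    -- bare
    obtain ⟨p', hp'⟩ : ∃ p' : ℝ, p' = a * b * c := ⟨_, rfl⟩
    rw [← hp'] at hpl hpu
    have hp'0 : 0 < p' := lt_of_lt_of_le hp0 hpl
    have hbare' : bare T' V' = max 1 ((p' / T') ^ 2) := by
      unfold bare; rw [v0, v1, v2, hp']
    have k1 : bare T V ≤ Q ^ 2 * bare T' V' := by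
      rw [hbareT, hbare']
      refine max_le ?_ ?_
      · have h1 : (1 : ℝ) ≤ Q ^ 2 := one_le_pow₀ (by linarith)
        have h2 : (1 : ℝ) ≤ max 1 ((p' / T') ^ 2) := le_max_left _ _
        nlinarith
      · have h1 : p / T ≤ Q * (p' / T') := by
          have : Q * (p' / T') = p' / T := by rw [hT']; field_simp
          rw [this]
          exact div_le_div_of_nonneg_right hpl hT0.le
        calc (p / T) ^ 2 ≤ (Q * (p' / T')) ^ 2 := pow_le_pow_left₀ (by positivity) h1 2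
          _ = Q ^ 2 * (p' / T') ^ 2 := by ring
          _ ≤ Q ^ 2 * max 1 ((p' / T') ^ 2) :=
            mul_le_mul_of_nonneg_left (le_max_right _ _) (by positivity)
    have k2 : bare T' V' ≤ Q ^ 28 * bare T V := by
      rw [hbareT, hbare']
      refine max_le ?_ ?_
      · have h1 : (1 : ℝ) ≤ Q ^ 28 := one_le_pow₀ (by linarith)
        have h2 : (1 : ℝ) ≤ max 1 ((p / T) ^ 2) := le_max_left _ _
        nlinarith
      · have h1 : p' / T' ≤ Q ^ 14 * (p / T) := by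
          rw [hT', div_le_iff₀ (by positivity)]
          have e : Q ^ 14 * (p / T) * (Q * T) = Q ^ 15 * p := by field_simp
          rw [e]
          refine hpu.trans (mul_le_mul_of_nonneg_right ?_ hp0.le)
          have h2 := pw2 hQ 9 6
          norm_num at h2
          calc (4 * Q ^ 3) ^ 3 = 64 * Q ^ 9 := by ring
            _ ≤ Q ^ 15 := h2
        calc (p' / T') ^ 2 ≤ (Q ^ 14 * (p / T)) ^ 2 := pow_le_pow_left₀ (by positivity) h1 2
          _ = Q ^ 28 * (p / T) ^ 2 := by ring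
          _ ≤ Q ^ 28 * max 1 ((p / T) ^ 2) :=
            mul_le_mul_of_nonneg_left (le_max_right _ _) (by positivity)
    have hb'0 : 0 < bare T' V' := lt_of_lt_of_le one_pos (le_max_left _ _)
    have hb0 : 0 < bare T V := lt_of_lt_of_le one_pos hbare
    have SCle : SC P T' R₁ g V' ≤ ENNReal.ofReal B := by
      by_cases hm : md
      · -- nearly isotropic
        have hRe : R₁ = T ^ (1 / 50 : ℝ) * bare T V := by
          rw [hR₁]; unfold rr; rw [if_pos (by rw [hmd] at hm; exact hm)]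
        have i1 : V' 0 ≤ P * V' 2 := by
          rw [v0, v2]
          have h1 := (iso hm).2.2.1
          have h2 : 4 * Q ^ 13 ≤ P := by
            have h3 := pw2 hQ 13 2
            norm_num at h3
            exact h3.trans (hPQ 15 (by norm_num))
          exact h1.trans (mul_le_mul_of_nonneg_right h2 (by linarith))
        have t1 : T ^ (1 / 50 : ℝ) ≤ T' ^ (1 / 50 : ℝ) :=
          Real.rpow_le_rpow hT0.le hTT' (by norm_num)
        have t0 : 0 < T ^ (1 / 50 : ℝ) := Real.rpow_pos_of_pos hT0 _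
        have t2 : T' ^ (1 / 50 : ℝ) ≤ Q * T ^ (1 / 50 : ℝ) := by
          rw [hT', Real.mul_rpow hQ0.le hT0.le]
          refine mul_le_mul_of_nonneg_right ?_ t0.le
          calc Q ^ (1 / 50 : ℝ) ≤ Q ^ (1 : ℝ) :=
                Real.rpow_le_rpow_of_exponent_le (by linarith) (by norm_num)
            _ = Q := Real.rpow_one Q
        have i2 : R₁ ≤ P * (T' ^ (1 / 50 : ℝ) * bare T' V') := by
          rw [hRe]
          calc T ^ (1 / 50 : ℝ) * bare T V ≤ T' ^ (1 / 50 : ℝ) * (Q ^ 2 * bare T' V') :=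
                mul_le_mul t1 k1 hb0.le (t0.le.trans t1)
            _ = Q ^ 2 * (T' ^ (1 / 50 : ℝ) * bare T' V') := by ring
            _ ≤ P * (T' ^ (1 / 50 : ℝ) * bare T' V') :=
              mul_le_mul_of_nonneg_right (hPQ 2 (by norm_num))
                (mul_nonneg (t0.le.trans t1) hb'0.le)
        have i3 : T' ^ (1 / 50 : ℝ) * bare T' V' ≤ P * R₁ := by
          rw [hRe]
          calc T' ^ (1 / 50 : ℝ) * bare T' V' ≤ (Q * T ^ (1 / 50 : ℝ)) * (Q ^ 28 * bare T V) :=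
                mul_le_mul t2 k2 hb'0.le (by positivity)
            _ = Q ^ 29 * (T ^ (1 / 50 : ℝ) * bare T V) := by ring
            _ ≤ P * (T ^ (1 / 50 : ℝ) * bare T V) :=
              mul_le_mul_of_nonneg_right (hPQ 29 (by norm_num)) (by positivity)
        refine (DU2 T' P hP2 hlogP (hpw c₂ (by omega)) g V' R₁ hsep hJGP hFam i1 i2 i3).trans ?_
        refine ENNReal.ofReal_le_ofReal ?_
        rw [hB]
        exact mul_le_mul_of_nonneg_right (pow_le_pow_right₀ (by linarith) (by omega)) (by linarith)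
      · have hRe : R₁ = bare T V := by
          rw [hR₁]; unfold rr; rw [if_neg (by rw [hmd] at hm; exact hm)]
        have i1 : 4 * V' 2 ≤ V' 1 ∨ 4 * V' 1 ≤ V' 0 := by
          rw [v0, v1, v2]
          by_contra hcon
          push Not at hcon
          obtain ⟨q1, q2⟩ := hcon
          rcases ani hm with h | h | h | h | h | h <;> linarith
        have i2 : R₁ ≤ P * bare T' V' := by
          rw [hRe]
          exact k1.trans (mul_le_mul_of_nonneg_right (hPQ 2 (by norm_num)) hb'0.le)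
        have i3 : bare T' V' ≤ P * R₁ := by
          rw [hRe]
          exact k2.trans (mul_le_mul_of_nonneg_right (hPQ 28 (by norm_num)) hb0.le)
        refine (DU1 T' P hP2 hlogP (hpw c₁ (by omega)) g V' R₁ hsep hJGP hFam i1 i2 i3).trans ?_
        refine ENNReal.ofReal_le_ofReal ?_
        rw [hB]
        exact mul_le_mul_of_nonneg_right (pow_le_pow_right₀ (by linarith) (by omega)) (by linarith)
    refine le_trans ?_ SCle
    unfold SC
    refine le_trans ?_ (ENNReal.sum_le_tsum H)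
    refine Finset.sum_le_sum fun h hh => ?_
    unfold ff
    refine ENNReal.tsum_le_tsum fun v => ?_
    obtain ⟨⟨q1, q2⟩, ⟨q3, q4⟩, ⟨q5, q6⟩⟩ := hH h hh
    have hcond : ∀ l, V' l / 2 < ‖g3 g h l‖ ∧ ‖g3 g h l‖ ≤ V' l := by
      intro l
      fin_cases l
      · change V' 0 / 2 < ‖g h.1‖ ∧ ‖g h.1‖ ≤ V' 0
        rw [v0]; exact ⟨q1, q2⟩
      · change V' 1 / 2 < ‖g h.2.1‖ ∧ ‖g h.2.1‖ ≤ V' 1
        rw [v1]; exact ⟨q3, q4⟩
      · change V' 2 / 2 < ‖g h.2.2‖ ∧ ‖g h.2.2‖ ≤ V' 2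
        rw [v2]; exact ⟨q5, q6⟩
    rw [if_pos hcond]
    have hne : ∀ z : ℤ × ℤ, 0 < ‖g z‖ → rc z ≠ 0 := by
      intro z hz h0
      have := (hgn z).2
      rw [h0, norm_zero, mul_zero] at this
      linarith
    have hnz : ∀ l, t3 (r3 h) l ≠ 0 := by
      intro l
      fin_cases l
      · exact hne h.1 (by linarith)
      · exact hne h.2.1 (by linarith)
      · exact hne h.2.2 (by linarith)
    refine (hvol R₁ h v (by linarith) hnz).trans (measure_mono fun m hm => ?_)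
    rw [hT']
    exact NRC_mono (by rw [hP]; exact pQ (by omega)) (by linarith) hm
  have all := sort3 (G := Gd (ff Q T R₁ A) g (ENNReal.ofReal B))
    (S := Sd (4 * Q ^ 4 * Lx T) (4 * Q ^ 4 * T ^ (677 / 2000 : ℝ)) p
      ((4 * Q ^ 3) ^ 3 * p) (4 * Q ^ 13) md)
    (fun a b c h => Gd_01 (ff01 Q T R₁ A) h) (fun a b c h => Gd_12 (ff12 Q T R₁ A) h)
    (fun a b c h => h.s01) (fun a b c h => h.s12) base
  -- classes
  have ghl : ∀ h ∈ H, ∀ l, V l ≤ ‖g3 g h l‖ ∧ ‖g3 g h l‖ ≤ 2 * Q ^ 3 * V l := by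
    intro h hh l
    have f := hfam h hh l
    have e : ‖t3 (r3 h) l‖ ≤ ‖g3 g h l‖ ∧ ‖g3 g h l‖ ≤ Q ^ 3 * ‖t3 (r3 h) l‖ := by
      fin_cases l
      · exact hgn h.1
      · exact hgn h.2.1
      · exact hgn h.2.2
    refine ⟨f.1.trans e.1, e.2.trans ?_⟩
    have := mul_le_mul_of_nonneg_left f.2 (by positivity : (0 : ℝ) ≤ Q ^ 3)
    linarith
  have hcl : ∀ (h : Z6) (l : Fin 3), ∃ k : ℕ, h ∈ H →
      (2 : ℝ) ^ k / 2 < ‖g3 g h l‖ ∧ ‖g3 g h l‖ ≤ 2 ^ k := by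
    intro h l
    by_cases hh : h ∈ H
    · obtain ⟨k, hk⟩ := cls ((hV1 l).trans (ghl h hh l).1)
      exact ⟨k, fun _ => hk⟩
    · exact ⟨0, fun h' => absurd h' hh⟩
  choose kk hkk using hcl
  obtain ⟨N, hN⟩ : ∃ N : ℕ, N = ⌊3 * Q⌋₊ + 1 := ⟨_, rfl⟩
  have hkN : ∀ h ∈ H, ∀ l, kk h l < N := by
    intro h hh l
    have h1 := (hkk h l hh).1
    have h2 := (ghl h hh l).2
    have h3 := hVL l
    have h4 : (2 : ℝ) ^ kk h l ≤ T ^ (1 : ℝ) := by
      have h5 : (2 : ℝ) ^ kk h l ≤ 4 * Q ^ 4 * Lx T := by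
        have h6 : 2 * Q ^ 3 * V l ≤ 2 * Q ^ 3 * (Q * Lx T) :=
          mul_le_mul_of_nonneg_left h3 (by positivity)
        have h7 : 2 * Q ^ 3 * (Q * Lx T) = 2 * (Q ^ 4 * Lx T) := by ring
        linarith
      have h6 : 4 * Q ^ 4 * Lx T ≤ Q ^ 6 * T ^ (277 / 500 : ℝ) := by
        have h7 := pw2 hQ 4 2
        norm_num at h7
        exact mul_le_mul_of_nonneg_right h7 hL0.le
      exact h5.trans (h6.trans (PL 6 _ _ (by omega) (by norm_num)))
    rw [Real.rpow_one] at h4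
    have h5 : (kk h l : ℝ) * Real.log 2 ≤ Q := by
      have h6 := Real.log_le_log (by positivity) h4
      rw [Real.log_pow] at h6
      exact h6.trans hlog
    have h6 : (1 / 2 : ℝ) < Real.log 2 := by
      have := Real.log_two_gt_d9
      linarith
    have h7 : (kk h l : ℝ) ≤ 3 * Q := by
      have : (0 : ℝ) ≤ kk h l := Nat.cast_nonneg _
      nlinarith
    rw [hN]
    exact Nat.lt_succ_of_le (Nat.le_floor h7)
  obtain ⟨KS, hKS⟩ : ∃ KS : Finset (ℕ × ℕ × ℕ),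
      KS = Finset.range N ×ˢ (Finset.range N ×ˢ Finset.range N) := ⟨_, rfl⟩
  have hmaps : ∀ h ∈ H, (kk h 0, kk h 1, kk h 2) ∈ KS := by
    intro h hh
    rw [hKS]
    simp only [Finset.mem_product, Finset.mem_range]
    exact ⟨hkN h hh 0, hkN h hh 1, hkN h hh 2⟩
  have hsplit : ∑ h ∈ H, ff Q T R₁ A h =
      ∑ κ ∈ KS, ∑ h ∈ H with (kk h 0, kk h 1, kk h 2) = κ, ff Q T R₁ A h :=
    (Finset.sum_fiberwise_of_maps_to hmaps _).symm
  have hclass : ∀ κ ∈ KS, ∑ h ∈ H with (kk h 0, kk h 1, kk h 2) = κ, ff Q T R₁ A h ≤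
      ENNReal.ofReal B := by
    intro κ _
    rcases Finset.eq_empty_or_nonempty (H.filter fun h => (kk h 0, kk h 1, kk h 2) = κ) with he | he
    · rw [he, Finset.sum_empty]; exact bot_le
    · obtain ⟨h₀, hh₀⟩ := he
      rw [Finset.mem_filter] at hh₀
      obtain ⟨hh₀, hκ⟩ := hh₀
      -- bounds of the class
      have bd : ∀ l, V l ≤ (2 : ℝ) ^ kk h₀ l ∧ (2 : ℝ) ^ kk h₀ l ≤ 4 * Q ^ 3 * V l := by
        intro l
        have h1 := hkk h₀ l hh₀
        have h2 := ghl h₀ hh₀ l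
        exact ⟨h2.1.trans h1.2, by linarith [h1.1, h2.2]⟩
      have q3 : (0 : ℝ) < Q ^ 3 := by positivity
      have side : Sd (4 * Q ^ 4 * Lx T) (4 * Q ^ 4 * T ^ (677 / 2000 : ℝ)) p
          ((4 * Q ^ 3) ^ 3 * p) (4 * Q ^ 13) md ((2 : ℝ) ^ kk h₀ 0) ((2 : ℝ) ^ kk h₀ 1)
          ((2 : ℝ) ^ kk h₀ 2) := by
        have bX : ∀ l, (2 : ℝ) ^ kk h₀ l ≤ 4 * Q ^ 4 * Lx T := by
          intro l
          have h1 := mul_le_mul_of_nonneg_left (hVL l) (by positivity : (0 : ℝ) ≤ 4 * Q ^ 3)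
          have h2 : 4 * Q ^ 3 * (Q * Lx T) = 4 * Q ^ 4 * Lx T := by ring
          linarith [(bd l).2]
        have bY : ∀ l, V l ≤ Q * T ^ (677 / 2000 : ℝ) →
            (2 : ℝ) ^ kk h₀ l ≤ 4 * Q ^ 4 * T ^ (677 / 2000 : ℝ) := by
          intro l hl
          have h1 := mul_le_mul_of_nonneg_left hl (by positivity : (0 : ℝ) ≤ 4 * Q ^ 3)
          have h2 : 4 * Q ^ 3 * (Q * T ^ (677 / 2000 : ℝ)) = 4 * Q ^ 4 * T ^ (677 / 2000 : ℝ) := by
            ring
          linarith [(bd l).2]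
        have b1 : ∀ l, 1 ≤ (2 : ℝ) ^ kk h₀ l := fun l => one_le_pow₀ (by norm_num)
        have biso : md → ∀ i j, (2 : ℝ) ^ kk h₀ i ≤ 4 * Q ^ 13 * (2 : ℝ) ^ kk h₀ j := by
          intro hm i j
          rw [hmd] at hm
          have h1 := hm i j
          have h2 := mul_le_mul_of_nonneg_left h1 (by positivity : (0 : ℝ) ≤ 4 * Q ^ 3)
          have h3 : 4 * Q ^ 3 * (Q ^ 10 * V j) = 4 * Q ^ 13 * V j := by ring
          have h4 := mul_le_mul_of_nonneg_left (bd j).1 (by positivity : (0 : ℝ) ≤ 4 * Q ^ 13)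
          linarith [(bd i).2]
        have bani : ∀ i j, Q ^ 10 * V j < V i → 16 * (2 : ℝ) ^ kk h₀ j < (2 : ℝ) ^ kk h₀ i := by
          intro i j hij
          have h1 : 64 * Q ^ 3 ≤ Q ^ 10 := by
            have h2 := pw2 hQ 3 6
            norm_num at h2
            exact h2.trans (pQ (by norm_num))
          have h2 := mul_le_mul_of_nonneg_right h1 (hV0 j).le
          linarith [(bd i).1, (bd j).2]
        refine ⟨⟨b1 0, b1 1, b1 2⟩, ⟨bX 0, bX 1, bX 2⟩, ?_, ⟨?_, ?_⟩, fun hm => ?_, fun hm => ?_⟩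
        · obtain ⟨i, j, hij, hi, hj⟩ := hV2
          have yi := bY i hi
          have yj := bY j hj
          fin_cases i <;> fin_cases j
          · exact absurd rfl hij
          · exact Or.inl ⟨yi, yj⟩
          · exact Or.inr (Or.inl ⟨yi, yj⟩)
          · exact Or.inl ⟨yj, yi⟩
          · exact absurd rfl hij
          · exact Or.inr (Or.inr ⟨yi, yj⟩)
          · exact Or.inr (Or.inl ⟨yj, yi⟩)
          · exact Or.inr (Or.inr ⟨yj, yi⟩)
          · exact absurd rfl hij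
        · rw [hp]
          have := (hV0 0).le
          have := (hV0 1).le
          have := (hV0 2).le
          exact mul_le_mul (mul_le_mul (bd 0).1 (bd 1).1 (by positivity) (by positivity)) (bd 2).1
            (by positivity) (by positivity)
        · rw [hp]
          have := (hV0 0).le
          have := (hV0 1).le
          have := (hV0 2).le
          calc (2 : ℝ) ^ kk h₀ 0 * 2 ^ kk h₀ 1 * 2 ^ kk h₀ 2 ≤
                (4 * Q ^ 3 * V 0) * (4 * Q ^ 3 * V 1) * (4 * Q ^ 3 * V 2) :=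
                mul_le_mul (mul_le_mul (bd 0).2 (bd 1).2 (by positivity) (by positivity)) (bd 2).2
                  (by positivity) (by positivity)
            _ = (4 * Q ^ 3) ^ 3 * (V 0 * V 1 * V 2) := by ring
        · exact ⟨biso hm 0 1, biso hm 1 0, biso hm 0 2, biso hm 2 0, biso hm 1 2, biso hm 2 1⟩
        · rw [hmd] at hm
          push Not at hm
          obtain ⟨i, j, hij⟩ := hm
          have e := bani i j hij
          have ne : i ≠ j := by
            rintro rfl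
            have := one_le_pow₀ (n := 10) (by linarith : (1 : ℝ) ≤ Q)
            nlinarith [hV0 i]
          fin_cases i <;> fin_cases j
          · exact absurd rfl ne
          · exact Or.inr (Or.inl e)
          · exact Or.inr (Or.inr (Or.inr (Or.inl e)))
          · exact Or.inl e
          · exact absurd rfl ne
          · exact Or.inr (Or.inr (Or.inr (Or.inr (Or.inr e))))
          · exact Or.inr (Or.inr (Or.inl e))
          · exact Or.inr (Or.inr (Or.inr (Or.inr (Or.inl e))))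
          · exact absurd rfl ne
      refine all _ _ _ side _ fun h hh => ?_
      rw [Finset.mem_filter] at hh
      obtain ⟨hh, hκ'⟩ := hh
      rw [← hκ, Prod.mk.injEq, Prod.mk.injEq] at hκ'
      obtain ⟨e0, e1, e2⟩ := hκ'
      rw [← e0, ← e1, ← e2]
      exact ⟨hkk h 0 hh, hkk h 1 hh, hkk h 2 hh⟩
  have htot : ∑ h ∈ H, ff Q T R₁ A h ≤ (KS.card : ENNReal) * ENNReal.ofReal B := by
    rw [hsplit]
    refine (Finset.sum_le_card_nsmul _ _ _ hclass).trans ?_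
    rw [nsmul_eq_mul]
  have hcard : (KS.card : ℝ) ≤ Q ^ 9 := by
    rw [hKS, Finset.card_product, Finset.card_product, Finset.card_range]
    have h1 : (N : ℝ) ≤ Q ^ 3 := by
      rw [hN]
      push_cast
      have h2 := Nat.floor_le (by positivity : (0 : ℝ) ≤ 3 * Q)
      have h3 := pw2 hQ 1 2
      norm_num at h3
      linarith
    push_cast
    have h2 : (0 : ℝ) ≤ N := Nat.cast_nonneg _
    calc (N : ℝ) * (N * N) ≤ Q ^ 3 * (Q ^ 3 * Q ^ 3) := by gcongr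
      _ = Q ^ 9 := by ring
  change ∑ h ∈ H, ff Q T (rr Q T V) A h ≤ ENNReal.ofReal (Q ^ cc * rr Q T V)
  rw [← hR₁]
  refine htot.trans ?_
  have h1 : (KS.card : ENNReal) = ENNReal.ofReal (KS.card : ℝ) := by
    rw [ENNReal.ofReal_natCast]
  rw [h1, ← ENNReal.ofReal_mul (Nat.cast_nonneg _)]
  refine ENNReal.ofReal_le_ofReal ?_
  calc (KS.card : ℝ) * B ≤ Q ^ 9 * B := mul_le_mul_of_nonneg_right hcard hB0
    _ = Q ^ (9 + b * (c₁ + c₂)) * R₁ := by
      rw [hB, hP, ← pow_mul, pow_add]; ring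
    _ ≤ Q ^ cc * R₁ := mul_le_mul_of_nonneg_right (pQ (by omega)) (by linarith)

end Pool.Agent.F5H.BN.H20
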