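import Pool.Agent.Helper20_F5H.WinId

/-!
MP_f5cbfa_nt, block N, row WIN: the estimates, with one constant `K`.
-/

set_option autoImplicit false

namespace Pool.Agent.F5H.BN.H20

open Pool.Agent.BTL Pool.Agent.F5S Pool.Agent.Helper48_F5

/-- the data of the row, `b` the midpoint of the two points, `n` the size of `v` -/
structure Dat (K T V n lam : ℝ) (b v h : T3) (A A0 A1 : ℝ × ℝ × ℝ) : Prop where
  hK : 2 ≤ K
  hT : 1 ≤ T
  hn : 1 ≤ n
  hV : 0 ≤ V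
  hl : lam ≠ 0
  hb : ∀ l, ‖b l‖ ≤ K * T
  hv : ∀ l, ‖v l‖ ≤ n
  hh : ∀ l, ‖h l‖ ≤ V
  hy : ∀ l, ‖v l - lam • b l‖ ≤ K
  hA0 : ‖A0‖ ≤ K
  hA1 : ‖A1‖ ≤ K
  hB : ‖A1 - A0‖ ≤ K * n / T
  hA : |lam| * T * ‖A - A0‖ ≤ 1
  inv1 : ∀ (X : ℝ × ℝ × ℝ) (f : ℝ), (∀ l, |AW X b h l| ≤ f) → ‖X‖ ≤ K * f / T ^ 2
  inv2 : ∀ (X : ℝ × ℝ × ℝ) (f : ℝ), (∀ l, |qf X (v l)| ≤ f) → ‖X‖ ≤ K * f / n ^ 2
  H0 : ∀ l, qf A0 (b l - (1 / 2 : ℝ) • v l) + qf A0 (h l) / 4 = T ^ 2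
  H1 : ∀ l, qf A1 (b l + (1 / 2 : ℝ) • v l) + qf A1 (h l) / 4 = T ^ 2
  F0 : ∀ i j, |bl A0 (b i - (1 / 2 : ℝ) • v i) (h i) - bl A0 (b j - (1 / 2 : ℝ) • v j) (h j)| ≤ K
  F1 : ∀ i j, |bl A1 (b i + (1 / 2 : ℝ) • v i) (h i) - bl A1 (b j + (1 / 2 : ℝ) • v j) (h j)| ≤ K
  s1 : n ^ 2 ≤ T
  s2 : |lam| * V ^ 2 ≤ T
  s3 : |lam| * n ≤ 1
  s4 : |lam| ^ 2 * V ≤ 1
  s5 : V ≤ T
  s6 : n ≤ K * (|lam| * T)

section

variable {K T V n lam : ℝ} {b v h : T3} {A A0 A1 : ℝ × ℝ × ℝ}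

theorem Dat.n_le (d : Dat K T V n lam b v h A A0 A1) : n ≤ T := by
  have h1 := d.hn
  have h2 := d.s1
  nlinarith

theorem Dat.n3 (d : Dat K T V n lam b v h A A0 A1) : n ^ 3 ≤ T ^ 2 := by
  have h1 := d.hn
  have h2 := d.s1
  have h3 := d.n_le
  have h4 : n ^ 2 * n ≤ T * T := mul_le_mul h2 h3 (by linarith) (by linarith [d.hT])
  nlinarith

theorem Dat.w1 (d : Dat K T V n lam b v h A A0 A1) : |lam| ≤ 1 := by
  have h1 := d.hn
  have h2 := d.s3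
  have h3 := abs_nonneg lam
  nlinarith

theorem Dat.nAb (d : Dat K T V n lam b v h A A0 A1) : ‖Ab A0 A1‖ ≤ K := by
  unfold Ab
  rw [norm_smul]
  have h1 := norm_add_le A0 A1
  have h2 := d.hA0
  have h3 := d.hA1
  rw [Real.norm_of_nonneg (by norm_num : (0 : ℝ) ≤ 1 / 2)]
  linarith

theorem pw {K : ℝ} (hK : 2 ≤ K) {a b : ℕ} (hab : a ≤ b) : K ^ a ≤ K ^ b :=
  pow_le_pow_right₀ (by linarith) hab

theorem pw2 {K : ℝ} (hK : 2 ≤ K) (a k : ℕ) : 2 ^ k * K ^ a ≤ K ^ (a + k) := by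
  rw [pow_add, mul_comm]
  exact mul_le_mul_of_nonneg_left (pow_le_pow_left₀ (by norm_num) hK k)
    (pow_nonneg (by linarith) a)

theorem Dat.nE (d : Dat K T V n lam b v h A A0 A1) : ‖Ee lam A0 A1‖ ≤ K ^ 8 / T := by
  have hK := d.hK
  have hT := d.hT
  have hT0 : 0 < T := by linarith
  have hK0 : 0 < K := by linarith
  have hn0 : 0 < n := by linarith [d.hn]
  have hw := abs_nonneg lam
  have key : ∀ l, |AW (Ee lam A0 A1) b h l| ≤ 11 * K ^ 3 * T := by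
    intro l
    have e : AW (Ee lam A0 A1) b h l = -2 * bl (Ab A0 A1) (b l) (v l - lam • b l) -
        qf (A1 - A0) (v l) / 4 + lam * qf (Ab A0 A1) (h l) / 2 :=
      idE A0 A1 (b l) (v l) (h l) lam (T ^ 2) (d.H0 l) (d.H1 l)
    have b1 := blb d.nAb (d.hb l) (d.hy l)
    have b2 := blb d.hB (d.hv l) (d.hv l)
    have b3 := blb d.nAb (d.hh l) (d.hh l)
    rw [bl_self] at b2 b3
    have c1 : 4 * K * (K * T) * K = 4 * K ^ 3 * T := by ring
    have c2 : 4 * (K * n / T) * n * n ≤ 4 * K * T := by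
      have : 4 * (K * n / T) * n * n = 4 * K * (n ^ 3 / T) := by ring
      rw [this]
      have : n ^ 3 / T ≤ T := by
        rw [div_le_iff₀ hT0]
        have := d.n3
        nlinarith
      gcongr
    have c3 : |lam * qf (Ab A0 A1) (h l) / 2| ≤ 2 * K * T := by
      rw [abs_div, abs_mul, abs_two]
      have h1 : |lam| * |qf (Ab A0 A1) (h l)| ≤ |lam| * (4 * K * V * V) :=
        mul_le_mul_of_nonneg_left b3 hw
      have h2 : |lam| * (4 * K * V * V) = 4 * K * (|lam| * V ^ 2) := by ring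
      have h3 : 4 * K * (|lam| * V ^ 2) ≤ 4 * K * T := by
        have := d.s2
        gcongr
      linarith
    rw [c1] at b1
    have c4 : K ≤ K ^ 3 := by
      calc K = K ^ 1 := (pow_one K).symm
        _ ≤ K ^ 3 := pw hK (by norm_num)
    have c5 : K * T ≤ K ^ 3 * T := mul_le_mul_of_nonneg_right c4 hT0.le
    rw [e]
    have d2 := b2.trans c2
    rw [abs_le] at b1 d2 c3 ⊢
    constructor <;> linarith [b1.1, b1.2, d2.1, d2.2, c3.1, c3.2]
  refine (d.inv1 _ _ key).trans ?_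
  have e1 : K * (11 * K ^ 3 * T) / T ^ 2 = 11 * K ^ 4 / T := by
    field_simp
  rw [e1]
  have e2 : 11 * K ^ 4 ≤ K ^ 8 := by
    have h1 := pw2 hK 4 4
    have h2 : (0 : ℝ) ≤ K ^ 4 := by positivity
    norm_num at h1
    linarith
  gcongr

theorem Dat.inv_w (d : Dat K T V n lam b v h A A0 A1) : |lam|⁻¹ / T ≤ K / n := by
  have hT0 : 0 < T := by linarith [d.hT]
  have hn0 : 0 < n := by linarith [d.hn]
  have hw0 : 0 < |lam| := abs_pos.2 d.hl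
  rw [div_le_div_iff₀ hT0 hn0]
  have h6 := d.s6
  rw [inv_mul_le_iff₀ hw0]
  linarith

theorem Dat.dX (d : Dat K T V n lam b v h A A0 A1) (i j : Fin 3) :
    |lam| * |bl (Ab A0 A1) (b i) (h i) - bl (Ab A0 A1) (b j) (h j)| ≤ K ^ 12 := by
  have hK := d.hK
  have hT := d.hT
  have hT0 : 0 < T := by linarith
  have hK0 : 0 < K := by linarith
  have hn0 : 0 < n := by linarith [d.hn]
  have hw := abs_nonneg lam
  have hV := d.hV
  have yb : ∀ l, |lam * bl (Ab A0 A1) (v l - lam • b l) (h l)| ≤ |lam| * (4 * K * K * V) := by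
    intro l
    rw [abs_mul]
    exact mul_le_mul_of_nonneg_left (blb d.nAb (d.hy l) (d.hh l)) hw
  have eb : ∀ l, |bl (Ee lam A0 A1) (v l) (h l)| ≤ 4 * (K ^ 8 / T) * n * V := fun l =>
    blb d.nE (d.hv l) (d.hh l)
  obtain ⟨X, hX⟩ : ∃ X : Fin 3 → ℝ, ∀ l, X l = bl (Ab A0 A1) (b l) (h l) := ⟨_, fun _ => rfl⟩
  rw [← hX i, ← hX j]
  have e : ∀ l, (1 - lam ^ 2 / 2) * X l = _ := fun l =>
    (hX l) ▸ idX A0 A1 (b l) (v l) (h l) lam
  have ei := e i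
  have ej := e j
  have f0 := d.F0 i j
  have f1 := d.F1 i j
  have y1 := yb i
  have y2 := yb j
  have g1 := eb i
  have g2 := eb j
  have S : |(1 - lam ^ 2 / 2) * (X i - X j)| ≤
      K + |lam| * (4 * K * K * V) + 4 * (K ^ 8 / T) * n * V / 2 := by
    have : (1 - lam ^ 2 / 2) * (X i - X j) = (1 - lam ^ 2 / 2) * X i - (1 - lam ^ 2 / 2) * X j := by
      ring
    rw [this, ei, ej]
    rw [abs_le] at f0 f1 y1 y2 g1 g2 ⊢
    constructor <;> linarith [f0.1, f0.2, f1.1, f1.2, y1.1, y1.2, y2.1, y2.2, g1.1, g1.2, g2.1,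
      g2.2]
  have hlam : lam ^ 2 ≤ 1 := by
    rw [← sq_abs]
    have := d.w1
    nlinarith
  have hq : (1 / 2 : ℝ) * |X i - X j| ≤ |(1 - lam ^ 2 / 2) * (X i - X j)| := by
    rw [abs_mul]
    refine mul_le_mul_of_nonneg_right ?_ (abs_nonneg _)
    rw [abs_of_nonneg (by linarith)]
    linarith
  have S2 := hq.trans S
  have S3 : |lam| * |X i - X j| ≤
      2 * (|lam| * K + 4 * K ^ 2 * (|lam| ^ 2 * V) + 2 * K ^ 8 * ((|lam| * n) * (V / T))) := by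
    have h1 := mul_le_mul_of_nonneg_left S2 hw
    have h2 : |lam| * (K + |lam| * (4 * K * K * V) + 4 * (K ^ 8 / T) * n * V / 2) =
        |lam| * K + 4 * K ^ 2 * (|lam| ^ 2 * V) + 2 * K ^ 8 * ((|lam| * n) * (V / T)) := by
      ring
    rw [h2] at h1
    linarith
  have t1 : |lam| * K ≤ K := by
    have := d.w1
    nlinarith
  have t2 : 4 * K ^ 2 * (|lam| ^ 2 * V) ≤ 4 * K ^ 2 * 1 := by
    have := d.s4
    gcongr
  have t3 : (|lam| * n) * (V / T) ≤ 1 := by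
    have h1 : V / T ≤ 1 := (div_le_one hT0).2 d.s5
    have h2 : 0 ≤ V / T := by positivity
    have := d.s3
    calc (|lam| * n) * (V / T) ≤ 1 * 1 := mul_le_mul this h1 h2 (by norm_num)
      _ = 1 := by norm_num
  have t4 : 2 * K ^ 8 * ((|lam| * n) * (V / T)) ≤ 2 * K ^ 8 * 1 := by gcongr
  have u1 : K ≤ K ^ 8 := by
    calc K = K ^ 1 := (pow_one K).symm
      _ ≤ K ^ 8 := pw hK (by norm_num)
  have u2 : K ^ 2 ≤ K ^ 8 := pw hK (by norm_num)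
  have u3 := pw2 hK 8 4
  norm_num at u3
  have u4 : (0 : ℝ) ≤ K ^ 8 := by positivity
  linarith

theorem Dat.dP (d : Dat K T V n lam b v h A A0 A1) (i j : Fin 3) :
    |bl (Gg lam A0 A1) (v i) (h i) - bl (Gg lam A0 A1) (v j) (h j)| ≤
      K ^ 14 * (1 + max ‖h i‖ ‖h j‖ / n) := by
  have hK := d.hK
  have hT := d.hT
  have hT0 : 0 < T := by linarith
  have hK0 : 0 < K := by linarith
  have hn0 : 0 < n := by linarith [d.hn]
  have hw0 : 0 < |lam| := abs_pos.2 d.hl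
  obtain ⟨M, hM⟩ : ∃ M : ℝ, M = max ‖h i‖ ‖h j‖ := ⟨_, rfl⟩
  have hM0 : 0 ≤ M := by rw [hM]; exact (norm_nonneg _).trans (le_max_left _ _)
  have hMi : ‖h i‖ ≤ M := by rw [hM]; exact le_max_left _ _
  have hMj : ‖h j‖ ≤ M := by rw [hM]; exact le_max_right _ _
  rw [← hM]
  have eb : ∀ l, ‖h l‖ ≤ M → |lam⁻¹ * bl (Ee lam A0 A1) (v l - lam • b l) (h l)| ≤
      4 * K ^ 10 * (M / n) := by
    intro l hl
    rw [abs_mul, abs_inv]
    have h1 := blb d.nE (d.hy l) hl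
    have h2 : |lam|⁻¹ * |bl (Ee lam A0 A1) (v l - lam • b l) (h l)| ≤
        |lam|⁻¹ * (4 * (K ^ 8 / T) * K * M) := mul_le_mul_of_nonneg_left h1 (by positivity)
    have h3 : |lam|⁻¹ * (4 * (K ^ 8 / T) * K * M) = 4 * K ^ 9 * M * (|lam|⁻¹ / T) := by ring
    have h4 : 4 * K ^ 9 * M * (|lam|⁻¹ / T) ≤ 4 * K ^ 9 * M * (K / n) :=
      mul_le_mul_of_nonneg_left d.inv_w (by positivity)
    have h5 : 4 * K ^ 9 * M * (K / n) = 4 * K ^ 10 * (M / n) := by ring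
    linarith
  have pi := idP A0 A1 (b i) (v i) (h i) lam d.hl
  have pj := idP A0 A1 (b j) (v j) (h j) lam d.hl
  have f0 := d.F0 i j
  have f1 := d.F1 i j
  have x1 := d.dX i j
  have g1 := eb i hMi
  have g2 := eb j hMj
  have x2 : |2 * lam * (bl (Ab A0 A1) (b i) (h i) - bl (Ab A0 A1) (b j) (h j))| ≤ 2 * K ^ 12 := by
    rw [abs_mul, abs_mul, abs_two]
    linarith
  have S : |bl (Gg lam A0 A1) (v i) (h i) - bl (Gg lam A0 A1) (v j) (h j)| ≤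
      2 * K + 2 * K ^ 12 + 8 * K ^ 10 * (M / n) := by
    rw [pi, pj]
    rw [abs_le] at f0 f1 x2 g1 g2 ⊢
    constructor <;> linarith [f0.1, f0.2, f1.1, f1.2, x2.1, x2.2, g1.1, g1.2, g2.1, g2.2]
  refine S.trans ?_
  have u1 : K ≤ K ^ 12 := by
    calc K = K ^ 1 := (pow_one K).symm
      _ ≤ K ^ 12 := pw hK (by norm_num)
  have u2 := pw2 hK 12 2
  norm_num at u2
  have u3 := pw2 hK 10 3
  norm_num at u3
  have u4 : K ^ 13 ≤ K ^ 14 := pw hK (by norm_num)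
  have u5 : 0 ≤ M / n := by positivity
  have u6 : 8 * K ^ 10 * (M / n) ≤ K ^ 14 * (M / n) :=
    mul_le_mul_of_nonneg_right (u3.trans u4) u5
  rw [mul_add, mul_one]
  linarith

theorem Dat.dR (d : Dat K T V n lam b v h A A0 A1) (l : Fin 3) :
    |qf (Gg lam A0 A1) (v l) - lam ^ 2 * T ^ 2 * (1 + qf A (h l) / (4 * T ^ 2))| ≤ K ^ 16 := by
  have hK := d.hK
  have hT := d.hT
  have hT0 : 0 < T := by linarith
  have hK0 : 0 < K := by linarith
  have hn := d.hn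
  have hn0 : 0 < n := by linarith
  have hw0 : 0 < |lam| := abs_pos.2 d.hl
  have hw2 : (lam ^ 2 : ℝ) = |lam| ^ 2 := (sq_abs lam).symm
  have e := idV A0 A1 (b l) (v l) (h l) lam (T ^ 2) d.hl (d.H0 l) (d.H1 l)
  have wn1 : |lam| ^ 2 * n ^ 2 ≤ 1 := by
    have h1 := d.s3
    have h2 : 0 ≤ |lam| * n := by positivity
    have h3 : |lam| ^ 2 * n ^ 2 = (|lam| * n) * (|lam| * n) := by ring
    rw [h3]
    nlinarith
  have r1 : |qf (Ab A0 A1) (v l - lam • b l)| ≤ 4 * K ^ 3 := by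
    have := blb d.nAb (d.hy l) (d.hy l)
    rw [bl_self] at this
    calc _ ≤ _ := this
      _ = _ := by ring
  have r2 : |lam ^ 2 * qf (Ab A0 A1) (v l) / 4| ≤ K := by
    have h1 := blb d.nAb (d.hv l) (d.hv l)
    rw [bl_self] at h1
    rw [hw2, abs_div, abs_mul, abs_of_nonneg (by positivity : (0 : ℝ) ≤ |lam| ^ 2),
      abs_of_pos (by norm_num : (0 : ℝ) < 4)]
    have h2 : |lam| ^ 2 * |qf (Ab A0 A1) (v l)| ≤ |lam| ^ 2 * (4 * K * n * n) :=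
      mul_le_mul_of_nonneg_left h1 (by positivity)
    have h3 : |lam| ^ 2 * (4 * K * n * n) = 4 * K * (|lam| ^ 2 * n ^ 2) := by ring
    have h4 : 4 * K * (|lam| ^ 2 * n ^ 2) ≤ 4 * K * 1 := by gcongr
    linarith
  have r3 : |lam ^ 2 * bl (A1 - A0) (b l) (v l) / 2| ≤ 2 * K ^ 2 := by
    have h1 := blb d.hB (d.hb l) (d.hv l)
    rw [hw2, abs_div, abs_mul, abs_of_nonneg (by positivity : (0 : ℝ) ≤ |lam| ^ 2), abs_two]
    have h2 : |lam| ^ 2 * |bl (A1 - A0) (b l) (v l)| ≤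
        |lam| ^ 2 * (4 * (K * n / T) * (K * T) * n) :=
      mul_le_mul_of_nonneg_left h1 (by positivity)
    have h3 : |lam| ^ 2 * (4 * (K * n / T) * (K * T) * n) = 4 * K ^ 2 * (|lam| ^ 2 * n ^ 2) := by
      field_simp
    have h4 : 4 * K ^ 2 * (|lam| ^ 2 * n ^ 2) ≤ 4 * K ^ 2 * 1 := by gcongr
    linarith
  have r4 : |lam * qf (Ee lam A0 A1) (h l) / 4| ≤ K ^ 8 := by
    have h1 := blb d.nE (d.hh l) (d.hh l)
    rw [bl_self] at h1
    rw [abs_div, abs_mul, abs_of_pos (by norm_num : (0 : ℝ) < 4)]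
    have h2 : |lam| * |qf (Ee lam A0 A1) (h l)| ≤ |lam| * (4 * (K ^ 8 / T) * V * V) :=
      mul_le_mul_of_nonneg_left h1 hw0.le
    have h3 : |lam| * (4 * (K ^ 8 / T) * V * V) = 4 * K ^ 8 * ((|lam| * V ^ 2) / T) := by ring
    have h5 : (|lam| * V ^ 2) / T ≤ 1 := (div_le_one hT0).2 d.s2
    have h4 : 4 * K ^ 8 * ((|lam| * V ^ 2) / T) ≤ 4 * K ^ 8 * 1 := by gcongr
    linarith
  have r5 : |lam * qf (A1 - A0) (v l) / 4| ≤ K := by
    have h1 := blb d.hB (d.hv l) (d.hv l)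
    rw [bl_self] at h1
    rw [abs_div, abs_mul, abs_of_pos (by norm_num : (0 : ℝ) < 4)]
    have h2 : |lam| * |qf (A1 - A0) (v l)| ≤ |lam| * (4 * (K * n / T) * n * n) :=
      mul_le_mul_of_nonneg_left h1 hw0.le
    have h3 : |lam| * (4 * (K * n / T) * n * n) = 4 * K * ((|lam| * n) * (n ^ 2 / T)) := by ring
    have h5 : n ^ 2 / T ≤ 1 := (div_le_one hT0).2 d.s1
    have h6 : (|lam| * n) * (n ^ 2 / T) ≤ 1 := by
      have := d.s3
      calc (|lam| * n) * (n ^ 2 / T) ≤ 1 * 1 := mul_le_mul this h5 (by positivity) (by norm_num)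
        _ = 1 := by norm_num
    have h4 : 4 * K * ((|lam| * n) * (n ^ 2 / T)) ≤ 4 * K * 1 := by gcongr
    linarith
  have r6 : |2 * bl (Ee lam A0 A1) (b l) (v l - lam • b l)| ≤ 8 * K ^ 10 := by
    have h1 := blb d.nE (d.hb l) (d.hy l)
    rw [abs_mul, abs_two]
    have h3 : 4 * (K ^ 8 / T) * (K * T) * K = 4 * K ^ 10 := by field_simp
    linarith
  have r7 : |lam⁻¹ * qf (Ee lam A0 A1) (v l - lam • b l)| ≤ 4 * K ^ 11 := by
    have h1 := blb d.nE (d.hy l) (d.hy l)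
    rw [bl_self] at h1
    rw [abs_mul, abs_inv]
    have h2 : |lam|⁻¹ * |qf (Ee lam A0 A1) (v l - lam • b l)| ≤
        |lam|⁻¹ * (4 * (K ^ 8 / T) * K * K) := mul_le_mul_of_nonneg_left h1 (by positivity)
    have h3 : |lam|⁻¹ * (4 * (K ^ 8 / T) * K * K) = 4 * K ^ 10 * (|lam|⁻¹ / T) := by ring
    have h5 : |lam|⁻¹ / T ≤ K := by
      refine d.inv_w.trans ?_
      rw [div_le_iff₀ hn0]
      nlinarith
    have h4 : 4 * K ^ 10 * (|lam|⁻¹ / T) ≤ 4 * K ^ 10 * K := by gcongr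
    have h6 : 4 * K ^ 10 * K = 4 * K ^ 11 := by ring
    linarith
  have r8 : |lam ^ 2 * (qf (Ab A0 A1) (h l) - qf A (h l)) / 4| ≤ 1 + K := by
    have hn1 : ‖Ab A0 A1 - A‖ ≤ ‖A - A0‖ + K * n / T / 2 := by
      have h1 : Ab A0 A1 - A = (1 / 2 : ℝ) • (A1 - A0) - (A - A0) := by
        unfold Ab
        ext <;> simp <;> ring
      rw [h1]
      refine (norm_sub_le _ _).trans ?_
      rw [norm_smul, Real.norm_of_nonneg (by norm_num : (0 : ℝ) ≤ 1 / 2)]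
      have := d.hB
      linarith
    have h1 := blb hn1 (d.hh l) (d.hh l)
    have h2 : bl (Ab A0 A1 - A) (h l) (h l) = qf (Ab A0 A1) (h l) - qf A (h l) := by
      rw [bl_sub_form, bl_self, bl_self]
    rw [h2] at h1
    rw [hw2, abs_div, abs_mul, abs_of_nonneg (by positivity : (0 : ℝ) ≤ |lam| ^ 2),
      abs_of_pos (by norm_num : (0 : ℝ) < 4)]
    have h3 : |lam| ^ 2 * |qf (Ab A0 A1) (h l) - qf A (h l)| ≤
        |lam| ^ 2 * (4 * (‖A - A0‖ + K * n / T / 2) * V * V) :=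
      mul_le_mul_of_nonneg_left h1 (by positivity)
    have h4 : |lam| ^ 2 * (4 * (‖A - A0‖ + K * n / T / 2) * V * V) =
        4 * (|lam| * V ^ 2) * (|lam| * (‖A - A0‖ + K * n / T / 2)) := by ring
    have h5 : 4 * (|lam| * V ^ 2) * (|lam| * (‖A - A0‖ + K * n / T / 2)) ≤
        4 * T * (|lam| * (‖A - A0‖ + K * n / T / 2)) := by
      have := d.s2
      gcongr
    have h6 : 4 * T * (|lam| * (‖A - A0‖ + K * n / T / 2)) =
        4 * (|lam| * T * ‖A - A0‖) + 2 * K * (|lam| * n) := by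
      field_simp
      ring
    have h7 := d.hA
    have h8 : 2 * K * (|lam| * n) ≤ 2 * K * 1 := by
      have := d.s3
      gcongr
    linarith
  have e2 : qf (Gg lam A0 A1) (v l) - lam ^ 2 * T ^ 2 * (1 + qf A (h l) / (4 * T ^ 2)) =
      lam ^ 2 * (qf (Ab A0 A1) (h l) - qf A (h l)) / 4 +
      (qf (Ab A0 A1) (v l - lam • b l) - lam ^ 2 * qf (Ab A0 A1) (v l) / 4 -
        lam ^ 2 * bl (A1 - A0) (b l) (v l) / 2 - lam * qf (Ee lam A0 A1) (h l) / 4 -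
        lam * qf (A1 - A0) (v l) / 4 + 2 * bl (Ee lam A0 A1) (b l) (v l - lam • b l) +
        lam⁻¹ * qf (Ee lam A0 A1) (v l - lam • b l)) := by
    rw [e]
    have : lam ^ 2 * T ^ 2 * (1 + qf A (h l) / (4 * T ^ 2)) =
        lam ^ 2 * T ^ 2 + lam ^ 2 * qf A (h l) / 4 := by
      field_simp
    rw [this]
    ring
  rw [e2]
  have S : |lam ^ 2 * (qf (Ab A0 A1) (h l) - qf A (h l)) / 4 +
      (qf (Ab A0 A1) (v l - lam • b l) - lam ^ 2 * qf (Ab A0 A1) (v l) / 4 -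
        lam ^ 2 * bl (A1 - A0) (b l) (v l) / 2 - lam * qf (Ee lam A0 A1) (h l) / 4 -
        lam * qf (A1 - A0) (v l) / 4 + 2 * bl (Ee lam A0 A1) (b l) (v l - lam • b l) +
        lam⁻¹ * qf (Ee lam A0 A1) (v l - lam • b l))| ≤
      (1 + K) + 4 * K ^ 3 + K + 2 * K ^ 2 + K ^ 8 + K + 8 * K ^ 10 + 4 * K ^ 11 := by
    rw [abs_le] at r1 r2 r3 r4 r5 r6 r7 r8 ⊢
    constructor <;> linarith [r1.1, r1.2, r2.1, r2.2, r3.1, r3.2, r4.1, r4.2, r5.1, r5.2, r6.1,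
      r6.2, r7.1, r7.2, r8.1, r8.2]
  refine S.trans ?_
  have u0 : 1 ≤ K ^ 11 := one_le_pow₀ (by linarith)
  have u1 : K ≤ K ^ 11 := by
    calc K = K ^ 1 := (pow_one K).symm
      _ ≤ K ^ 11 := pw hK (by norm_num)
  have u2 : K ^ 2 ≤ K ^ 11 := pw hK (by norm_num)
  have u3 : K ^ 3 ≤ K ^ 11 := pw hK (by norm_num)
  have u4 : K ^ 8 ≤ K ^ 11 := pw hK (by norm_num)
  have u5 : K ^ 10 ≤ K ^ 11 := pw hK (by norm_num)
  have u6 := pw2 hK 11 5
  norm_num at u6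
  linarith

/-- the conclusion, for the form `D` with the exact values -/
theorem Dat.fin (d : Dat K T V n lam b v h A A0 A1) {D : ℝ × ℝ × ℝ}
    (hD : ∀ l, qf D (v l) = 1 + qf A (h l) / (4 * T ^ 2)) (i j : Fin 3) :
    n ^ 2 * |bl D (v i) (h i) - bl D (v j) (h j)| ≤ K ^ 30 * (1 + max ‖h i‖ ‖h j‖ / n) := by
  have hK := d.hK
  have hT := d.hT
  have hT0 : 0 < T := by linarith
  have hK0 : 0 < K := by linarith
  have hn := d.hn
  have hn0 : 0 < n := by linarith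
  have hw0 : 0 < |lam| := abs_pos.2 d.hl
  have hw2 : (lam ^ 2 : ℝ) = |lam| ^ 2 := (sq_abs lam).symm
  obtain ⟨s, hs⟩ : ∃ s : ℝ, s = lam ^ 2 * T ^ 2 := ⟨_, rfl⟩
  have hs' : s = (|lam| * T) ^ 2 := by rw [hs, hw2]; ring
  have hs0 : 0 < s := by rw [hs']; positivity
  have ns : n ^ 2 ≤ K ^ 2 * s := by
    rw [hs', ← mul_pow]
    exact pow_le_pow_left₀ hn0.le d.s6 2
  obtain ⟨D', hD'⟩ : ∃ D' : ℝ × ℝ × ℝ, D' = s⁻¹ • Gg lam A0 A1 := ⟨_, rfl⟩
  have hdiff : ∀ l, |qf (D - D') (v l)| ≤ K ^ 16 / s := by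
    intro l
    have h1 := d.dR l
    rw [← hs] at h1
    have h2 : qf (D - D') (v l) =
        -(s⁻¹ * (qf (Gg lam A0 A1) (v l) - s * (1 + qf A (h l) / (4 * T ^ 2)))) := by
      rw [← bl_self, bl_sub_form, hD', bl_smul_form, bl_self, bl_self, hD l]
      field_simp
      ring
    rw [h2, abs_neg, abs_mul, abs_of_pos (inv_pos.2 hs0), div_eq_inv_mul (K ^ 16) s]
    exact mul_le_mul_of_nonneg_left h1 (inv_pos.2 hs0).le
  have hnd := d.inv2 _ _ hdiff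
  obtain ⟨M, hM⟩ : ∃ M : ℝ, M = max ‖h i‖ ‖h j‖ := ⟨_, rfl⟩
  have hM0 : 0 ≤ M := by rw [hM]; exact (norm_nonneg _).trans (le_max_left _ _)
  have hMi : ‖h i‖ ≤ M := by rw [hM]; exact le_max_left _ _
  have hMj : ‖h j‖ ≤ M := by rw [hM]; exact le_max_right _ _
  have hp := d.dP i j
  rw [← hM] at hp ⊢
  have eb : ∀ l, ‖h l‖ ≤ M → |bl (D - D') (v l) (h l)| ≤ 4 * K ^ 17 * (M / n) / s := by
    intro l hl
    refine (blb hnd (d.hv l) hl).trans (le_of_eq ?_)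
    field_simp
  have e1 := eb i hMi
  have e2 := eb j hMj
  have dd : ∀ l, bl D (v l) (h l) = s⁻¹ * bl (Gg lam A0 A1) (v l) (h l) +
      bl (D - D') (v l) (h l) := by
    intro l
    rw [bl_sub_form, hD', bl_smul_form]
    ring
  have S : |bl D (v i) (h i) - bl D (v j) (h j)| ≤
      (K ^ 14 * (1 + M / n) + 8 * K ^ 17 * (M / n)) / s := by
    have h1 : bl D (v i) (h i) - bl D (v j) (h j) =
        s⁻¹ * (bl (Gg lam A0 A1) (v i) (h i) - bl (Gg lam A0 A1) (v j) (h j)) +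
        (bl (D - D') (v i) (h i) - bl (D - D') (v j) (h j)) := by
      rw [dd i, dd j]
      ring
    rw [h1]
    refine (abs_add_le _ _).trans ?_
    rw [abs_mul, abs_of_pos (inv_pos.2 hs0)]
    have h2 : s⁻¹ * |bl (Gg lam A0 A1) (v i) (h i) - bl (Gg lam A0 A1) (v j) (h j)| ≤
        s⁻¹ * (K ^ 14 * (1 + M / n)) := mul_le_mul_of_nonneg_left hp (inv_pos.2 hs0).le
    have h3 := abs_sub (bl (D - D') (v i) (h i)) (bl (D - D') (v j) (h j))
    have h4 : (K ^ 14 * (1 + M / n) + 8 * K ^ 17 * (M / n)) / s =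
        s⁻¹ * (K ^ 14 * (1 + M / n)) + (4 * K ^ 17 * (M / n) / s + 4 * K ^ 17 * (M / n) / s) := by
      field_simp
      ring
    rw [h4]
    linarith
  have Mn : 0 ≤ M / n := by positivity
  calc n ^ 2 * |bl D (v i) (h i) - bl D (v j) (h j)|
      ≤ (K ^ 2 * s) * ((K ^ 14 * (1 + M / n) + 8 * K ^ 17 * (M / n)) / s) :=
        mul_le_mul ns S (abs_nonneg _) (by positivity)
    _ = K ^ 16 * (1 + M / n) + 8 * K ^ 19 * (M / n) := by
        field_simp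
    _ ≤ K ^ 30 * (1 + M / n) := by
        have u1 := pw2 hK 19 3
        norm_num at u1
        have u2 : K ^ 16 ≤ K ^ 22 := pw hK (by norm_num)
        have u3 := pw2 hK 22 1
        norm_num at u3
        have u4 : K ^ 23 ≤ K ^ 30 := pw hK (by norm_num)
        have u5 : 8 * K ^ 19 * (M / n) ≤ K ^ 22 * (1 + M / n) :=
          calc 8 * K ^ 19 * (M / n) ≤ K ^ 22 * (M / n) := mul_le_mul_of_nonneg_right u1 Mn
            _ ≤ K ^ 22 * (1 + M / n) := mul_le_mul_of_nonneg_left (by linarith) (by positivity)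
        have u6 : K ^ 16 * (1 + M / n) ≤ K ^ 22 * (1 + M / n) :=
          mul_le_mul_of_nonneg_right u2 (by linarith)
        have u7 : 2 * K ^ 22 * (1 + M / n) ≤ K ^ 30 * (1 + M / n) :=
          mul_le_mul_of_nonneg_right (u3.trans u4) (by linarith)
        linarith

end

end Pool.Agent.F5H.BN.H20
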