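import Pool.Agent.F5H.StmtsN
import Pool.Agent.Helper20_F5H.WinCore

/-!
MP_f5cbfa_nt, block N, row WIN: `WINStmt` of `Pool/Agent/F5H/StmtsN.lean`.
-/

set_option autoImplicit false

namespace Pool.Agent.F5H.BN.H20

open Pool.Agent.BTL Pool.Agent.F5S Pool.Agent.F5H Pool.Agent.Helper48_F5

theorem abs_dr_le {z w : ℝ × ℝ} {x y : ℝ} (hz : ‖z‖ ≤ x) (hw : ‖w‖ ≤ y) : |dr z w| ≤ 2 * x * y := by
  have h1 := (abs_fst_le z).trans hz
  have h2 := (abs_snd_le z).trans hz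
  have h3 := (abs_fst_le w).trans hw
  have h4 := (abs_snd_le w).trans hw
  have hx : 0 ≤ x := (norm_nonneg z).trans hz
  have hy : 0 ≤ y := (norm_nonneg w).trans hw
  unfold dr
  refine (abs_sub _ _).trans ?_
  rw [abs_mul, abs_mul]
  have e1 : |z.1| * |w.2| ≤ x * y := mul_le_mul h1 h4 (abs_nonneg _) hx
  have e2 : |z.2| * |w.1| ≤ x * y := mul_le_mul h2 h3 (abs_nonneg _) hx
  linarith

theorem nt3_le (x : R6) (l : Fin 3) : ‖t3 x l‖ ≤ ‖x‖ := by
  have h1 : ‖x.1‖ ≤ ‖x‖ := norm_fst_le x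
  have h2 : ‖x.2‖ ≤ ‖x‖ := norm_snd_le x
  have h3 : ‖x.2.1‖ ≤ ‖x.2‖ := norm_fst_le x.2
  have h4 : ‖x.2.2‖ ≤ ‖x.2‖ := norm_snd_le x.2
  fin_cases l
  · exact h1
  · exact h3.trans h2
  · exact h4.trans h2

theorem le_nt3 {x : R6} {C : ℝ} (hC : ∀ l, ‖t3 x l‖ ≤ C) : ‖x‖ ≤ C := by
  have h0 : ‖x.1‖ ≤ C := hC 0
  have h1 : ‖x.2.1‖ ≤ C := hC 1
  have h2 : ‖x.2.2‖ ≤ C := hC 2
  rw [Prod.norm_def, Prod.norm_def (x := x.2)]
  exact max_le h0 (max_le h1 h2)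

theorem t3_sub (x y : R6) (l : Fin 3) : t3 (x - y) l = t3 x l - t3 y l := by
  fin_cases l <;> rfl

/-- comparison of powers -/
theorem pl {T Q : ℝ} (hQ : 2 ≤ Q) (hT : 1 ≤ T) {c : ℕ} (hQT : Q ^ c ≤ T ^ (1 / 100000 : ℝ)) {k : ℕ}
    (hk : k ≤ c) {a b : ℝ} (hab : a + 1 / 100000 ≤ b) : Q ^ k * T ^ a ≤ T ^ b := by
  have hT0 : 0 < T := by linarith
  calc Q ^ k * T ^ a ≤ T ^ (1 / 100000 : ℝ) * T ^ a :=
        mul_le_mul_of_nonneg_right ((pw hQ hk).trans hQT) (Real.rpow_nonneg hT0.le _)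
    _ = T ^ (1 / 100000 + a) := (Real.rpow_add hT0 _ _).symm
    _ ≤ T ^ b := Real.rpow_le_rpow_of_exponent_le hT (by linarith)

theorem sq_rpow {T : ℝ} (hT : 0 < T) (a : ℝ) : (T ^ a) ^ 2 = T ^ (2 * a) := by
  rw [← Real.rpow_natCast, ← Real.rpow_mul hT.le]
  congr 1
  push_cast
  ring

/-- all numerical facts -/
structure Num (T Q V x : ℝ) : Prop where
  hQ : 2 ≤ Q
  hT : Q ^ 2000 ≤ T
  hV : 0 ≤ V
  x1 : 1 ≤ x
  f2 : Q ^ 4 * x ^ 2 ≤ T
  f3 : Q ^ 20 * V ^ 2 ≤ T ^ 2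
  f4 : 2 * x * V ^ 2 ≤ T ^ 2
  f5 : 4 * x ^ 2 * V ≤ T ^ 2
  f6 : V ≤ T

theorem mk_num {T Q : ℝ} (hQ : 2 ≤ Q) (hT : 0 < T) (hQT : Q ^ 2000 ≤ T ^ (1 / 100000 : ℝ)) :
    Num T Q (Q * Lx T) (T ^ (49 / 100 : ℝ)) ∧
      2 * T ^ (49 / 100 : ℝ) * (Q * T ^ (-(1 / 2) : ℝ)) ≤ 1 := by
  have hQ1 : 1 ≤ Q ^ 2000 := one_le_pow₀ (by linarith)
  have hT1 : 1 ≤ T := by
    by_contra hlt
    push Not at hlt
    have := Real.rpow_lt_one hT.le hlt (by norm_num : (0 : ℝ) < 1 / 100000)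
    linarith
  have P : ∀ (k : ℕ) (a b : ℝ), k ≤ 2000 → a + 1 / 100000 ≤ b → Q ^ k * T ^ a ≤ T ^ b :=
    fun k a b hk hab => pl hQ hT1 hQT hk hab
  have hL : Lx T = T ^ (277 / 500 : ℝ) := rfl
  have hx0 : 0 < T ^ (49 / 100 : ℝ) := Real.rpow_pos_of_pos hT _
  have hL0 : 0 < T ^ (277 / 500 : ℝ) := Real.rpow_pos_of_pos hT _
  have hQ0 : 0 < Q := by linarith
  have sx : (T ^ (49 / 100 : ℝ)) ^ 2 = T ^ (98 / 100 : ℝ) := by
    rw [sq_rpow hT]; norm_num
  have sL : (T ^ (277 / 500 : ℝ)) ^ 2 = T ^ (277 / 250 : ℝ) := by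
    rw [sq_rpow hT]; norm_num
  have T2 : T ^ (2 : ℝ) = T ^ 2 := Real.rpow_two T
  have T1 : T ^ (1 : ℝ) = T := Real.rpow_one T
  refine ⟨⟨hQ, ?_, by rw [hL]; positivity, Real.one_le_rpow hT1 (by norm_num), ?_, ?_, ?_, ?_, ?_⟩,
    ?_⟩
  · calc Q ^ 2000 ≤ T ^ (1 / 100000 : ℝ) := hQT
      _ ≤ T ^ (1 : ℝ) := Real.rpow_le_rpow_of_exponent_le hT1 (by norm_num)
      _ = T := T1
  · rw [sx, ← T1]
    have := P 4 (98 / 100) 1 (by norm_num) (by norm_num)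
    simpa only [T1] using this
  · rw [hL, mul_pow, sL, ← T2]
    have := P 22 (277 / 250) 2 (by norm_num) (by norm_num)
    calc Q ^ 20 * (Q ^ 2 * T ^ (277 / 250 : ℝ)) = Q ^ 22 * T ^ (277 / 250 : ℝ) := by ring
      _ ≤ _ := this
  · rw [hL, mul_pow, sL, ← T2]
    have h1 := P 3 (799 / 500) 2 (by norm_num) (by norm_num)
    have h2 : T ^ (49 / 100 : ℝ) * T ^ (277 / 250 : ℝ) = T ^ (799 / 500 : ℝ) := by
      rw [← Real.rpow_add hT]; norm_num
    have h3 : 0 < T ^ (799 / 500 : ℝ) := Real.rpow_pos_of_pos hT _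
    calc 2 * T ^ (49 / 100 : ℝ) * (Q ^ 2 * T ^ (277 / 250 : ℝ)) =
          2 * Q ^ 2 * (T ^ (49 / 100 : ℝ) * T ^ (277 / 250 : ℝ)) := by ring
      _ = 2 * Q ^ 2 * T ^ (799 / 500 : ℝ) := by rw [h2]
      _ ≤ Q * Q ^ 2 * T ^ (799 / 500 : ℝ) := by gcongr
      _ = Q ^ 3 * T ^ (799 / 500 : ℝ) := by ring
      _ ≤ _ := h1
  · rw [hL, sx, ← T2]
    have h1 := P 3 (767 / 500) 2 (by norm_num) (by norm_num)
    have h2 : T ^ (98 / 100 : ℝ) * T ^ (277 / 500 : ℝ) = T ^ (767 / 500 : ℝ) := by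
      rw [← Real.rpow_add hT]; norm_num
    have h3 : 0 < T ^ (767 / 500 : ℝ) := Real.rpow_pos_of_pos hT _
    have h4 : 4 ≤ Q ^ 2 := by nlinarith
    calc 4 * T ^ (98 / 100 : ℝ) * (Q * T ^ (277 / 500 : ℝ)) =
          4 * Q * (T ^ (98 / 100 : ℝ) * T ^ (277 / 500 : ℝ)) := by ring
      _ = 4 * Q * T ^ (767 / 500 : ℝ) := by rw [h2]
      _ ≤ Q ^ 2 * Q * T ^ (767 / 500 : ℝ) := by gcongr
      _ = Q ^ 3 * T ^ (767 / 500 : ℝ) := by ring
      _ ≤ _ := h1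
  · rw [hL]
    have h1 := P 1 (277 / 500) 1 (by norm_num) (by norm_num)
    rwa [pow_one, T1] at h1
  · have h1 := P 2 (-(1 / 100)) 0 (by norm_num) (by norm_num)
    have h2 : T ^ (49 / 100 : ℝ) * T ^ (-(1 / 2) : ℝ) = T ^ (-(1 / 100) : ℝ) := by
      rw [← Real.rpow_add hT]; norm_num
    have h3 : 0 < T ^ (-(1 / 100) : ℝ) := Real.rpow_pos_of_pos hT _
    rw [Real.rpow_zero] at h1
    calc 2 * T ^ (49 / 100 : ℝ) * (Q * T ^ (-(1 / 2) : ℝ)) =
          2 * Q * (T ^ (49 / 100 : ℝ) * T ^ (-(1 / 2) : ℝ)) := by ring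
      _ = 2 * Q * T ^ (-(1 / 100) : ℝ) := by rw [h2]
      _ ≤ Q * Q * T ^ (-(1 / 100) : ℝ) := by gcongr
      _ = Q ^ 2 * T ^ (-(1 / 100) : ℝ) := by ring
      _ ≤ 1 := h1

/-- the geometry: regular midpoint, regular difference -/
theorem geo {T Q V x ν n : ℝ} {m v h : T3} (N : Num T Q V x)
    (hm : ∀ l, ‖m l‖ ≤ Q * T) (hm' : ∀ l, ‖m l + v l‖ ≤ Q * T)
    (hd : ∀ i j, i ≠ j → T ^ 2 ≤ Q * |dr (m i) (m j)|) (hh : ∀ l, ‖h l‖ ≤ V)
    (hν : |ν| * T ≤ x) (hu : ∀ l, ‖v l - ν • m l‖ ≤ Q)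
    (hv : ∀ l, ‖v l‖ ≤ n) (hv' : ∀ C : ℝ, (∀ l, ‖v l‖ ≤ C) → n ≤ C) (hn : Q ^ 2000 ≤ n) :
    ∃ lam : ℝ, |lam| * T ≤ 2 * x ∧ n ≤ 2 * Q * (|lam| * T) ∧ n ≤ 2 * Q * x ∧
      (∀ l, ‖v l - lam • (m l + (1 / 2 : ℝ) • v l)‖ ≤ 2 * Q) ∧
      Reg (4 * Q) T V (fun l => m l + (1 / 2 : ℝ) • v l) h ∧
      Reg (Q ^ 8) n 0 v (fun _ => 0) := by
  have hQ := N.hQ
  have hQ0 : 0 < Q := by linarith
  have x1 := N.x1
  have pQ : ∀ k : ℕ, k ≤ 2000 → Q ^ k ≤ Q ^ 2000 := fun k hk => pw hQ hk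
  have hTQ : ∀ k : ℕ, k ≤ 2000 → Q ^ k ≤ T := fun k hk => (pQ k hk).trans N.hT
  have hT1 : 1 ≤ T := by
    have := hTQ 0 (by norm_num)
    simpa using this
  have hT0 : 0 < T := by linarith
  have hn1 : 1 ≤ n := by
    have := (pQ 0 (by norm_num)).trans hn
    simpa using this
  have hn0 : 0 < n := by linarith
  -- `|ν| ≤ 1/2`
  have hν2 : |ν| ≤ 1 / 2 := by
    have h1 : Q ^ 4 * x ≤ T := by
      have := N.f2
      have h2 : x ≤ x ^ 2 := by nlinarith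
      have h3 : (0 : ℝ) ≤ Q ^ 4 := by positivity
      nlinarith
    have h2 : (2 : ℝ) ≤ Q ^ 4 := by
      calc (2 : ℝ) ≤ Q := hQ
        _ = Q ^ 1 := (pow_one Q).symm
        _ ≤ Q ^ 4 := pw hQ (by norm_num)
    have h3 : 2 * x ≤ T := by
      have : 2 * x ≤ Q ^ 4 * x := mul_le_mul_of_nonneg_right h2 (by linarith)
      linarith
    have h4 : |ν| * T ≤ (1 / 2) * T := by linarith
    exact le_of_mul_le_mul_right h4 hT0
  have hνa := abs_le.1 hν2
  have h1ν : 0 < 1 + ν / 2 := by linarith [hνa.1]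
  obtain ⟨lam, hlam⟩ : ∃ lam : ℝ, lam = ν / (1 + ν / 2) := ⟨_, rfl⟩
  have hlν : lam * (1 + ν / 2) = ν := by rw [hlam]; exact div_mul_cancel₀ _ h1ν.ne'
  have hll : |lam| ≤ 2 * |ν| := by
    have h1 : |lam| * (1 + ν / 2) = |ν| := by
      have h0 := congrArg abs hlν
      rw [abs_mul, abs_of_pos h1ν] at h0
      exact h0
    have h2 := abs_nonneg lam
    nlinarith [hνa.1]
  have hl1 : |lam| ≤ 1 := by linarith
  have hla := abs_le.1 hl1
  have hlT : |lam| * T ≤ 2 * x := by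
    have := mul_le_mul_of_nonneg_right hll hT0.le
    linarith
  obtain ⟨b, hb⟩ : ∃ b : T3, b = fun l => m l + (1 / 2 : ℝ) • v l := ⟨_, rfl⟩
  have hbl : ∀ l, b l = m l + (1 / 2 : ℝ) • v l := fun l => by rw [hb]
  have hbn : ∀ l, ‖b l‖ ≤ Q * T := by
    intro l
    have h1 : b l = (1 / 2 : ℝ) • (m l + (m l + v l)) := by
      rw [hbl]; ext <;> simp <;> ring
    rw [h1, norm_smul, Real.norm_of_nonneg (by norm_num : (0 : ℝ) ≤ 1 / 2)]
    have := norm_add_le (m l) (m l + v l)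
    have h2 := hm l
    have h3 := hm' l
    linarith
  have hyl : ∀ l, v l - lam • b l = (1 - lam / 2) • (v l - ν • m l) := by
    intro l
    have e : ν * (1 - lam / 2) = lam := by linear_combination -hlν
    rw [hbl]
    ext
    · simp only [Prod.fst_sub, Prod.smul_fst, Prod.fst_add, smul_eq_mul]
      linear_combination (m l).1 * e
    · simp only [Prod.snd_sub, Prod.smul_snd, Prod.snd_add, smul_eq_mul]
      linear_combination (m l).2 * e
  have hyn : ∀ l, ‖v l - lam • b l‖ ≤ 2 * Q := by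
    intro l
    rw [hyl, norm_smul, Real.norm_eq_abs]
    have h1 : |1 - lam / 2| ≤ 2 := by
      rw [abs_le]; constructor <;> linarith [hla.1, hla.2]
    exact mul_le_mul h1 (hu l) (norm_nonneg _) (by norm_num)
  -- sizes
  obtain ⟨s, hs⟩ : ∃ s : ℝ, s = |lam| * T := ⟨_, rfl⟩
  have hs0 : 0 ≤ s := by rw [hs]; positivity
  have hns : n ≤ Q * s + 2 * Q := by
    refine hv' _ fun l => ?_
    have h1 : v l = lam • b l + (v l - lam • b l) := by abel
    rw [h1]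
    refine (norm_add_le _ _).trans ?_
    rw [norm_smul, Real.norm_eq_abs]
    have h2 : |lam| * ‖b l‖ ≤ |lam| * (Q * T) := mul_le_mul_of_nonneg_left (hbn l) (abs_nonneg _)
    have h3 : |lam| * (Q * T) = Q * s := by rw [hs]; ring
    have := hyn l
    linarith
  have h4Q : 4 * Q ≤ n := by
    have h1 : 4 * Q ≤ Q ^ 3 := by
      have := pw2 hQ 1 2
      norm_num at this
      exact this
    exact h1.trans ((pQ 3 (by norm_num)).trans hn)
  have hns2 : n ≤ 2 * Q * s := by linarith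
  have hnx : n ≤ 2 * Q * x := by
    refine hv' _ fun l => ?_
    have h1 : v l = ν • m l + (v l - ν • m l) := by abel
    rw [h1]
    refine (norm_add_le _ _).trans ?_
    rw [norm_smul, Real.norm_eq_abs]
    have h2 : |ν| * ‖m l‖ ≤ |ν| * (Q * T) := mul_le_mul_of_nonneg_left (hm l) (abs_nonneg _)
    have h3 : |ν| * (Q * T) = Q * (|ν| * T) := by ring
    have h4 : Q * (|ν| * T) ≤ Q * x := mul_le_mul_of_nonneg_left hν hQ0.le
    have h5 : Q ≤ Q * x := by nlinarith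
    have := hu l
    linarith
  have hdb : ∀ i j, i ≠ j → T ^ 2 / (4 * Q) ≤ |dr (b i) (b j)| := by
    intro i j hij
    obtain ⟨u, hudef⟩ : ∃ u : T3, ∀ l, u l = v l - ν • m l := ⟨_, fun _ => rfl⟩
    have hun : ∀ l, ‖u l‖ ≤ Q := fun l => by rw [hudef]; exact hu l
    have e : dr (b i) (b j) = (1 + ν / 2) ^ 2 * dr (m i) (m j) +
        ((1 + ν / 2) / 2 * (dr (m i) (u j) + dr (u i) (m j)) + dr (u i) (u j) / 4) := by
      rw [hbl, hbl, hudef, hudef]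
      simp only [dr, Prod.fst_add, Prod.snd_add, Prod.fst_sub, Prod.snd_sub, Prod.smul_fst,
        Prod.smul_snd, smul_eq_mul]
      ring
    have h1 := abs_dr_le (hm i) (hun j)
    have h2 := abs_dr_le (hun i) (hm j)
    have h3 := abs_dr_le (hun i) (hun j)
    have r : |(1 + ν / 2) / 2 * (dr (m i) (u j) + dr (u i) (m j)) + dr (u i) (u j) / 4| ≤
        4 * Q ^ 2 * T + Q ^ 2 := by
      refine (abs_add_le _ _).trans ?_
      rw [abs_mul, abs_div (dr (u i) (u j)) 4, abs_of_pos (by norm_num : (0 : ℝ) < 4)]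
      have h4 := abs_add_le (dr (m i) (u j)) (dr (u i) (m j))
      have h5 : |(1 + ν / 2) / 2| ≤ 1 := by
        rw [abs_le]; constructor <;> linarith [hνa.1, hνa.2]
      have h6 : |(1 + ν / 2) / 2| * |dr (m i) (u j) + dr (u i) (m j)| ≤
          1 * (2 * (Q * T) * Q + 2 * Q * (Q * T)) :=
        mul_le_mul h5 (h4.trans (add_le_add h1 h2)) (abs_nonneg _) (by norm_num)
      nlinarith
    have q : 9 / 16 * (T ^ 2 / Q) ≤ |(1 + ν / 2) ^ 2 * dr (m i) (m j)| := by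
      rw [abs_mul, abs_of_nonneg (sq_nonneg (1 + ν / 2))]
      have h4 : (9 / 16 : ℝ) ≤ (1 + ν / 2) ^ 2 := by nlinarith [hνa.1, hνa.2]
      have h5 : T ^ 2 / Q ≤ |dr (m i) (m j)| := by
        rw [div_le_iff₀ hQ0]
        have := hd i j hij
        linarith
      exact mul_le_mul h4 h5 (by positivity) (by positivity)
    have tri : |(1 + ν / 2) ^ 2 * dr (m i) (m j)| - |(1 + ν / 2) / 2 * (dr (m i) (u j) +
        dr (u i) (m j)) + dr (u i) (u j) / 4| ≤ |dr (b i) (b j)| := by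
      rw [e]
      have := abs_sub_abs_le_abs_add ((1 + ν / 2) ^ 2 * dr (m i) (m j))
        ((1 + ν / 2) / 2 * (dr (m i) (u j) + dr (u i) (m j)) + dr (u i) (u j) / 4)
      exact this
    have big : 4 * Q ^ 2 * T + Q ^ 2 ≤ 5 / 16 * (T ^ 2 / Q) := by
      have h4 : Q ^ 7 ≤ T := hTQ 7 (by norm_num)
      have h5 : 16 * Q ^ 3 ≤ Q ^ 7 := by
        have := pw2 hQ 3 4
        norm_num at this
        exact this
      have h6 : 16 * Q ^ 3 ≤ T := h5.trans h4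
      rw [← mul_div_assoc, le_div_iff₀ hQ0]
      have h7 : Q ^ 3 ≤ Q ^ 3 * T := by
        have : (0 : ℝ) ≤ Q ^ 3 := by positivity
        nlinarith
      have h8 : 16 * Q ^ 3 * T ≤ T * T := mul_le_mul_of_nonneg_right h6 hT0.le
      nlinarith
    have fin : T ^ 2 / (4 * Q) = 1 / 4 * (T ^ 2 / Q) := by field_simp
    rw [fin]
    linarith
  have hdv : ∀ i j, i ≠ j → n ^ 2 / Q ^ 8 ≤ |dr (v i) (v j)| := by
    intro i j hij
    obtain ⟨y, hydef⟩ : ∃ y : T3, ∀ l, y l = v l - lam • b l := ⟨_, fun _ => rfl⟩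
    have hyn' : ∀ l, ‖y l‖ ≤ 2 * Q := fun l => by rw [hydef]; exact hyn l
    have e : dr (v i) (v j) = lam ^ 2 * dr (b i) (b j) +
        (lam * (dr (b i) (y j) + dr (y i) (b j)) + dr (y i) (y j)) := by
      rw [hydef, hydef]
      simp only [dr, Prod.fst_sub, Prod.snd_sub, Prod.smul_fst, Prod.smul_snd, smul_eq_mul]
      ring
    have h1 := abs_dr_le (hbn i) (hyn' j)
    have h2 := abs_dr_le (hyn' i) (hbn j)
    have h3 := abs_dr_le (hyn' i) (hyn' j)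
    have r : |lam * (dr (b i) (y j) + dr (y i) (b j)) + dr (y i) (y j)| ≤
        8 * Q ^ 2 * s + 8 * Q ^ 2 := by
      refine (abs_add_le _ _).trans ?_
      rw [abs_mul]
      have h4 := abs_add_le (dr (b i) (y j)) (dr (y i) (b j))
      have h6 : |lam| * |dr (b i) (y j) + dr (y i) (b j)| ≤
          |lam| * (2 * (Q * T) * (2 * Q) + 2 * (2 * Q) * (Q * T)) :=
        mul_le_mul_of_nonneg_left (h4.trans (add_le_add h1 h2)) (abs_nonneg _)
      have h7 : |lam| * (2 * (Q * T) * (2 * Q) + 2 * (2 * Q) * (Q * T)) = 8 * Q ^ 2 * s := by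
        rw [hs]; ring
      nlinarith
    have q : s ^ 2 / (4 * Q) ≤ |lam ^ 2 * dr (b i) (b j)| := by
      rw [abs_mul, abs_of_nonneg (sq_nonneg lam)]
      have h5 := mul_le_mul_of_nonneg_left (hdb i j hij) (sq_nonneg lam)
      have h6 : s ^ 2 / (4 * Q) = lam ^ 2 * (T ^ 2 / (4 * Q)) := by
        rw [hs, mul_pow, sq_abs]; ring
      rw [h6]; exact h5
    have tri : |lam ^ 2 * dr (b i) (b j)| - |lam * (dr (b i) (y j) + dr (y i) (b j)) +
        dr (y i) (y j)| ≤ |dr (v i) (v j)| := by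
      rw [e]
      exact abs_sub_abs_le_abs_add _ _
    -- `s` is large
    have sb : 128 * Q ^ 3 ≤ s := by
      have h4 : Q ^ 12 ≤ n := (pQ 12 (by norm_num)).trans hn
      have h5 : 256 * Q ^ 4 ≤ Q ^ 12 := by
        have := pw2 hQ 4 8
        norm_num at this
        exact this
      have h6 : (2 * Q) * (128 * Q ^ 3) ≤ (2 * Q) * s := by
        calc (2 * Q) * (128 * Q ^ 3) = 256 * Q ^ 4 := by ring
          _ ≤ 2 * Q * s := h5.trans (h4.trans hns2)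
      exact le_of_mul_le_mul_left h6 (by positivity)
    have big : 8 * Q ^ 2 * s + 8 * Q ^ 2 ≤ s ^ 2 / (8 * Q) := by
      rw [le_div_iff₀ (by positivity)]
      have h4 : 1 ≤ s := by
        have : (1 : ℝ) ≤ Q ^ 3 := one_le_pow₀ (by linarith)
        linarith
      have h5 : 128 * Q ^ 3 * s ≤ s * s := mul_le_mul_of_nonneg_right sb hs0
      have h6 : Q ^ 3 ≤ Q ^ 3 * s := by
        have : (0 : ℝ) ≤ Q ^ 3 := by positivity
        nlinarith
      nlinarith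
    have sn : n ^ 2 / Q ^ 8 ≤ s ^ 2 / (8 * Q) := by
      rw [div_le_div_iff₀ (by positivity) (by positivity)]
      have h4 : n ^ 2 ≤ (2 * Q * s) ^ 2 := pow_le_pow_left₀ hn0.le hns2 2
      have h5 : 32 * Q ^ 3 ≤ Q ^ 8 := by
        have := pw2 hQ 3 5
        norm_num at this
        exact this
      calc n ^ 2 * (8 * Q) ≤ (2 * Q * s) ^ 2 * (8 * Q) :=
            mul_le_mul_of_nonneg_right h4 (by positivity)
        _ = s ^ 2 * (32 * Q ^ 3) := by ring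
        _ ≤ s ^ 2 * Q ^ 8 := mul_le_mul_of_nonneg_left h5 (by positivity)
    have fin : s ^ 2 / (4 * Q) = 2 * (s ^ 2 / (8 * Q)) := by field_simp; ring
    linarith
  refine ⟨lam, hlT, by rw [← hs]; exact hns2, hnx, ?_, ?_, ?_⟩
  · intro l
    have := hyn l
    rwa [hbl] at this
  · rw [← hb]
    refine ⟨fun l => ?_, hdb, hh⟩
    have h1 := hbn l
    have h2 : Q * T ≤ 4 * Q * T := by nlinarith [mul_pos hQ0 hT0]
    exact h1.trans h2
  · refine ⟨fun l => ?_, hdv, fun l => by simp⟩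
    have h1 := hv l
    have h2 : (1 : ℝ) ≤ Q ^ 8 := one_le_pow₀ (by linarith)
    nlinarith

theorem win : WINStmt := by
  refine ⟨2000, ?_⟩
  intro T Q hQ hQT h m₀ m₁ ν A hh R0 R1 hν hu hA hvn
  have hQ0 : 0 < Q := by linarith
  have hT0' : 0 ≤ T := by
    have h1 := (norm_nonneg _).trans (R0.hm 0)
    exact nonneg_of_mul_nonneg_right h1 hQ0
  have hT0 : 0 < T := by
    rcases hT0'.lt_or_eq with h1 | h1
    · exact h1
    · exfalso
      rw [← h1, Real.zero_rpow (by norm_num)] at hQT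
      have : 0 < Q ^ 2000 := by positivity
      linarith
  obtain ⟨N, N7⟩ := mk_num hQ hT0 hQT
  obtain ⟨V, hVdef⟩ : ∃ V : ℝ, V = Q * Lx T := ⟨_, rfl⟩
  obtain ⟨x, hxdef⟩ : ∃ x : ℝ, x = T ^ (49 / 100 : ℝ) := ⟨_, rfl⟩
  rw [← hVdef, ← hxdef] at N
  rw [← hxdef] at N7 hν
  rw [← hVdef] at hh
  have x1 := N.x1
  have pQ : ∀ k : ℕ, k ≤ 2000 → Q ^ k ≤ Q ^ 2000 := fun k hk => pw hQ hk
  have hT1 : 1 ≤ T := by
    have := (pQ 0 (by norm_num)).trans N.hT
    simpa using this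
  have hhl : ∀ l, ‖t3 h l‖ ≤ V := fun l => (nt3_le h l).trans hh
  obtain ⟨v, hv⟩ : ∃ v : R6, v = m₁ - m₀ := ⟨_, rfl⟩
  rw [← hv] at hu hvn ⊢
  obtain ⟨n, hn⟩ : ∃ n : ℝ, n = ‖v‖ := ⟨_, rfl⟩
  rw [← hn] at hvn
  have hvl : ∀ l, ‖t3 v l‖ ≤ n := fun l => by rw [hn]; exact nt3_le v l
  have hm1 : ∀ l, t3 m₀ l + t3 v l = t3 m₁ l := fun l => by rw [hv, t3_sub]; abel
  have hm1' : t3 m₀ + t3 v = t3 m₁ := funext hm1
  obtain ⟨lam, g1, g2, g3, g4, g5, g6⟩ := geo (h := t3 h) (n := n) N R0.hm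
    (fun l => by rw [hm1]; exact R1.hm l) R0.hd hhl hν hu hvl
    (fun C hC => by rw [hn]; exact le_nt3 hC) hvn
  -- regular points
  have reg : ∀ m : R6, Rg Q T h m → Reg Q T V (t3 m) (t3 h) := by
    intro m hm
    refine ⟨hm.hm, fun i j hij => ?_, hhl⟩
    rw [div_le_iff₀ hQ0]
    have := hm.hd i j hij
    linarith
  have f3 := N.f3
  have V2 : 0 ≤ V ^ 2 := sq_nonneg V
  have hs6 : 6 * Q ^ 4 * V ^ 2 ≤ T ^ 2 := by
    have h1 : 6 * Q ^ 4 ≤ Q ^ 20 := by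
      have h2 := pw2 hQ 4 3
      norm_num at h2
      have h3 : Q ^ 7 ≤ Q ^ 20 := pw hQ (by norm_num)
      have h4 : (0 : ℝ) ≤ Q ^ 4 := by positivity
      linarith
    exact (mul_le_mul_of_nonneg_right h1 V2).trans f3
  have hsb : 6 * (4 * Q) ^ 4 * V ^ 2 ≤ T ^ 2 := by
    have h1 : 6 * (4 * Q) ^ 4 ≤ Q ^ 20 := by
      have h2 := pw2 hQ 4 11
      norm_num at h2
      have h3 : Q ^ 15 ≤ Q ^ 20 := pw hQ (by norm_num)
      have h4 : (0 : ℝ) ≤ Q ^ 4 := by positivity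
      have h5 : 6 * (4 * Q) ^ 4 = 1536 * Q ^ 4 := by ring
      linarith
    exact (mul_le_mul_of_nonneg_right h1 V2).trans f3
  have o0 := ok_of_reg (by linarith) hT0 hs6 (reg m₀ R0)
  have o1 := ok_of_reg (by linarith) hT0 hs6 (reg m₁ R1)
  have ob := ok_of_reg (by linarith) hT0 hsb g5
  have hn1 : 1 ≤ n := by
    have := (pQ 0 (by norm_num)).trans hvn
    simpa using this
  have hn0 : 0 < n := by linarith
  have hQ8 : (1 : ℝ) ≤ Q ^ 8 := one_le_pow₀ (by linarith)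
  have ov := ok_of_reg hQ8 hn0 (by
    have : (0 : ℝ) ≤ n ^ 2 := sq_nonneg n
    simpa using this) g6
  -- numbers
  have n1 : 6 * Q ^ 4 ≤ Q ^ 50 := by
    have h2 := pw2 hQ 4 3
    norm_num at h2
    have h3 : Q ^ 7 ≤ Q ^ 50 := pw hQ (by norm_num)
    have h4 : (0 : ℝ) ≤ Q ^ 4 := by positivity
    linarith
  have n2 : 6 * (4 * Q) ^ 4 ≤ Q ^ 50 := by
    have h2 := pw2 hQ 4 11
    norm_num at h2
    have h3 : Q ^ 15 ≤ Q ^ 50 := pw hQ (by norm_num)
    have h4 : (0 : ℝ) ≤ Q ^ 4 := by positivity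
    have h5 : 6 * (4 * Q) ^ 4 = 1536 * Q ^ 4 := by ring
    linarith
  have n3 : 6 * (Q ^ 8) ^ 4 ≤ Q ^ 50 := by
    have h2 := pw2 hQ 32 3
    norm_num at h2
    have h3 : Q ^ 35 ≤ Q ^ 50 := pw hQ (by norm_num)
    have h4 : (0 : ℝ) ≤ Q ^ 32 := by positivity
    have h5 : 6 * (Q ^ 8) ^ 4 = 6 * Q ^ 32 := by ring
    linarith
  have n4 : 12 * (6 * Q ^ 4) ^ 3 ≤ Q ^ 50 := by
    have h2 := pw2 hQ 12 12
    norm_num at h2
    have h3 : Q ^ 24 ≤ Q ^ 50 := pw hQ (by norm_num)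
    have h4 : (0 : ℝ) ≤ Q ^ 12 := by positivity
    have h5 : 12 * (6 * Q ^ 4) ^ 3 = 2592 * Q ^ 12 := by ring
    linarith
  have n5 : Q ≤ Q ^ 50 := by
    calc Q = Q ^ 1 := (pow_one Q).symm
      _ ≤ Q ^ 50 := pw hQ (by norm_num)
  have n6 : 2 * Q ≤ Q ^ 50 := by
    have h2 := pw2 hQ 1 1
    norm_num at h2
    exact h2.trans (pw hQ (by norm_num))
  have k1 : 1 ≤ 6 * Q ^ 4 := by
    have : (1 : ℝ) ≤ Q ^ 4 := one_le_pow₀ (by linarith)
    linarith
  have hnT : n ^ 2 ≤ T := by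
    have h1 : n ^ 2 ≤ (2 * Q * x) ^ 2 := pow_le_pow_left₀ hn0.le g3 2
    have h2 : (2 * Q * x) ^ 2 = 4 * Q ^ 2 * x ^ 2 := by ring
    have h3 : 4 * Q ^ 2 ≤ Q ^ 4 := by
      have := pw2 hQ 2 2
      norm_num at this
      exact this
    have h4 := mul_le_mul_of_nonneg_right h3 (sq_nonneg x)
    have := N.f2
    linarith
  have hnT' : n ≤ T := by nlinarith
  have hw := abs_nonneg lam
  have hZ0 : ‖Zf T (t3 m₀) (t3 h)‖ ≤ Q ^ 50 := (norm_Zf_le hT0 o0).trans n1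
  have hZ1 : ‖Zf T (t3 m₁) (t3 h)‖ ≤ Q ^ 50 := (norm_Zf_le hT0 o1).trans n1
  have hvpi : ‖t3 v‖ ≤ n := (pi_norm_le_iff_of_nonneg hn0.le).2 hvl
  have hBd : ‖Zf T (t3 m₁) (t3 h) - Zf T (t3 m₀) (t3 h)‖ ≤ Q ^ 50 * n / T := by
    have h1 := dZ_le (u := t3 v) k1 hT0 o0 (by rw [hm1']; exact o1) (by
      refine hvpi.trans (hnT'.trans ?_)
      nlinarith)
    rw [hm1'] at h1
    refine h1.trans ?_
    have h2 : 12 * (6 * Q ^ 4) ^ 3 * ‖t3 v‖ ≤ Q ^ 50 * n :=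
      mul_le_mul n4 hvpi (norm_nonneg _) (by positivity)
    exact div_le_div_of_nonneg_right h2 hT0.le
  have D : Dat (Q ^ 50) T V n lam (fun l => t3 m₀ l + (1 / 2 : ℝ) • t3 v l) (t3 v) (t3 h) A
      (Zf T (t3 m₀) (t3 h)) (Zf T (t3 m₁) (t3 h)) := by
    have hbm : ∀ l, t3 m₀ l + (1 / 2 : ℝ) • t3 v l - (1 / 2 : ℝ) • t3 v l = t3 m₀ l :=
      fun l => by abel
    have hbp : ∀ l, t3 m₀ l + (1 / 2 : ℝ) • t3 v l + (1 / 2 : ℝ) • t3 v l = t3 m₁ l := by
      intro l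
      rw [add_assoc, ← add_smul, ← hm1]
      norm_num
    refine
      { hK := by
          refine hQ.trans n5
        hT := hT1
        hn := hn1
        hV := N.hV
        hl := ?_
        hb := ?_
        hv := hvl
        hh := hhl
        hy := fun l => (g4 l).trans n6
        hA0 := hZ0
        hA1 := hZ1
        hB := hBd
        hA := ?_
        inv1 := ?_
        inv2 := ?_
        H0 := ?_
        H1 := ?_
        F0 := ?_
        F1 := ?_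
        s1 := hnT
        s2 := ?_
        s3 := ?_
        s4 := ?_
        s5 := N.f6
        s6 := ?_ }
    · rintro rfl
      rw [abs_zero, zero_mul, mul_zero] at g2
      linarith
    · intro l
      have h1 := g5.hm l
      refine h1.trans (mul_le_mul_of_nonneg_right ?_ hT0.le)
      have h2 := pw2 hQ 1 2
      norm_num at h2
      exact h2.trans (pw hQ (by norm_num))
    · have h1 : |lam| * T * ‖A - Zf T (t3 m₀) (t3 h)‖ ≤ (2 * x) * (Q * T ^ (-(1 / 2) : ℝ)) :=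
        mul_le_mul g1 hA (norm_nonneg _) (by linarith)
      exact h1.trans N7
    · intro X f hf
      have hf0 : 0 ≤ f := (abs_nonneg _).trans (hf 0)
      refine (ob.inv X f hf).trans ?_
      exact div_le_div_of_nonneg_right (mul_le_mul_of_nonneg_right n2 hf0) (by positivity)
    · intro X f hf
      have hf0 : 0 ≤ f := (abs_nonneg _).trans (hf 0)
      refine (ov.inv X f fun l => ?_).trans ?_
      · have : AW X (t3 v) (fun _ => 0) l = qf X (t3 v l) := by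
          simp [AW, qf]
        rw [this]; exact hf l
      · exact div_le_div_of_nonneg_right (mul_le_mul_of_nonneg_right n3 hf0) (by positivity)
    · intro l
      have := AW_Zf o0 l
      rw [hbm]
      exact this
    · intro l
      have := AW_Zf o1 l
      rw [hbp]
      exact this
    · intro i j
      rw [hbm, hbm]
      exact (R0.hF i j).trans n5
    · intro i j
      rw [hbp, hbp]
      exact (R1.hF i j).trans n5
    · have h1 : (|lam| * V ^ 2) * T ≤ T * T := by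
        have h2 := mul_le_mul_of_nonneg_right g1 V2
        have := N.f4
        nlinarith
      exact le_of_mul_le_mul_right h1 hT0
    · have h1 : (|lam| * n) * T ≤ 1 * T := by
        have h2 : (|lam| * T) * n ≤ (2 * x) * (2 * Q * x) :=
          mul_le_mul g1 g3 hn0.le (by linarith)
        have h3 : 4 * Q ≤ Q ^ 4 := by
          have := pw2 hQ 1 2
          norm_num at this
          exact this.trans (pw hQ (by norm_num))
        have h4 := mul_le_mul_of_nonneg_right h3 (sq_nonneg x)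
        have := N.f2
        nlinarith
      exact le_of_mul_le_mul_right h1 hT0
    · have h1 : (|lam| ^ 2 * V) * T ^ 2 ≤ 1 * T ^ 2 := by
        have h2 : (|lam| * T) ^ 2 ≤ (2 * x) ^ 2 := pow_le_pow_left₀ (by positivity) g1 2
        have h3 := mul_le_mul_of_nonneg_right h2 N.hV
        have := N.f5
        nlinarith
      exact le_of_mul_le_mul_right h1 (by positivity)
    · refine g2.trans ?_
      have : 0 ≤ |lam| * T := by positivity
      exact mul_le_mul_of_nonneg_right n6 this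
  refine ⟨sol (t3 v) (fun _ => 0) (fun l => 1 + qf A (t3 h l) / (4 * T ^ 2)), ?_, ?_⟩
  · intro l
    have h1 := AW_sol ov (fun l => 1 + qf A (t3 h l) / (4 * T ^ 2)) l
    have h2 : AW (sol (t3 v) (fun _ => 0) (fun l => 1 + qf A (t3 h l) / (4 * T ^ 2))) (t3 v)
        (fun _ => 0) l =
        qf (sol (t3 v) (fun _ => 0) (fun l => 1 + qf A (t3 h l) / (4 * T ^ 2))) (t3 v l) := by
      simp [AW, qf]
    rw [← h2]; exact h1
  · intro i j
    have hD : ∀ l, qf (sol (t3 v) (fun _ => 0) (fun l => 1 + qf A (t3 h l) / (4 * T ^ 2)))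
        (t3 v l) = 1 + qf A (t3 h l) / (4 * T ^ 2) := by
      intro l
      have h1 := AW_sol ov (fun l => 1 + qf A (t3 h l) / (4 * T ^ 2)) l
      have h2 : AW (sol (t3 v) (fun _ => 0) (fun l => 1 + qf A (t3 h l) / (4 * T ^ 2))) (t3 v)
          (fun _ => 0) l =
          qf (sol (t3 v) (fun _ => 0) (fun l => 1 + qf A (t3 h l) / (4 * T ^ 2))) (t3 v l) := by
        simp [AW, qf]
      rw [← h2]; exact h1
    have f := D.fin hD i j
    rw [← hn]
    refine f.trans ?_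
    have hM0 : 0 ≤ max ‖t3 h i‖ ‖t3 h j‖ := (norm_nonneg _).trans (le_max_left _ _)
    refine mul_le_mul_of_nonneg_right ?_ (by positivity)
    rw [← pow_mul]
    exact pw hQ (by norm_num)

end Pool.Agent.F5H.BN.H20
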