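import Pool.Agent.F5H.StmtsG

/-!
MP_f5cbfa_nt, block C, row I5: the centre of a chart from a point of the source.
-/

set_option autoImplicit false

namespace Pool.Agent.F5H.BC.H20

open Pool.Agent.BTL Pool.Agent.F5S Pool.Agent.F5H Pool.Agent.F5.H58 Pool.Agent.F5H.BC

theorem ncp_le (x : R6) (l : Fin 3) : ‖cp x l‖ ≤ ‖x‖ := by
  have h1 : ‖x.1‖ ≤ ‖x‖ := norm_fst_le x
  have h2 : ‖x.2‖ ≤ ‖x‖ := norm_snd_le x
  have h3 : ‖x.2.1‖ ≤ ‖x.2‖ := norm_fst_le x.2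
  have h4 : ‖x.2.2‖ ≤ ‖x.2‖ := norm_snd_le x.2
  fin_cases l
  · exact h1
  · exact h3.trans h2
  · exact h4.trans h2

theorem le_ncp {x : R6} {C : ℝ} (hC : ∀ l, ‖cp x l‖ ≤ C) : ‖x‖ ≤ C := by
  have h0 : ‖x.1‖ ≤ C := hC 0
  have h1 : ‖x.2.1‖ ≤ C := hC 1
  have h2 : ‖x.2.2‖ ≤ C := hC 2
  rw [Prod.norm_def, Prod.norm_def (x := x.2)]
  exact max_le h0 (max_le h1 h2)

/-- I5 -/
theorem i5 : I5Stmt := by
  intro cha mn lpx
  obtain ⟨Q1, hQ1, ac⟩ := ac_ev lpx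
  obtain ⟨Q2, hQ2, mn⟩ := mn
  refine ⟨Q1 + Q2 + 1000, by linarith, ?_⟩
  intro T Q V k0 s h k hQ hlog hQT hRg hSz hk0 hk1 hk2 hkV a ha
  have hQ1000 : 1000 ≤ Q := by linarith
  have hQ0 : 0 < Q := by linarith
  obtain ⟨v2, v12, v01, -, -⟩ := id hRg
  obtain ⟨hA, -, hsrt, -, -⟩ := ha
  obtain ⟨-, -, -, -, -, cx, ck⟩ := cha.1 a.1 Q (by linarith) hA
  have hkb : k0 ≤ Q ^ 35 * V 0 := hk1.trans hkV
  obtain ⟨m1, m2, m3, m4, m5, m6, m7, m8, m9, -, -, -⟩ :=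
    mn T Q V k0 (by linarith) hlog hQT hRg hk0 hkb
  have hV : ∀ l, 1 ≤ V l := by
    intro l
    fin_cases l
    · show 1 ≤ V 0
      linarith
    · show 1 ≤ V 1
      linarith
    · exact v2
  have eh : ∀ l, hG a.1 h l = gA a.1 (cp h l) := fun _ => rfl
  have ek : ∀ l, kG a.1 k l = kA a.1 (cp k l) := fun _ => rfl
  refine
    { hQ := hQ1000
      ac := ac Q (by linarith)
      hA := hA
      srt := hsrt
      sz1 := fun l => ?_
      sz2 := fun l => ?_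
      v2 := v2
      v12 := v12
      v01 := v01
      k1 := hk0
      kA1 := ?_
      kA2 := ?_
      hT := m1
      p0 := m2
      p1 := m3
      p2 := m4
      p3 := m5
      p4 := m6
      p5 := m7
      p6 := m8
      p7 := m9 }
  · have h1 := (hSz l).1
    have h2 := (cx (cp h l)).1
    rw [← eh l] at h2
    calc V l ≤ Q * ‖cp h l‖ := h1
      _ ≤ Q * (Q * ‖hG a.1 h l‖) := mul_le_mul_of_nonneg_left h2 hQ0.le
      _ = Q ^ 2 * ‖hG a.1 h l‖ := by ring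
  · have h1 := (hSz l).2
    have h2 := (cx (cp h l)).2
    rw [← eh l] at h2
    have hVl := hV l
    calc ‖hG a.1 h l‖ ≤ 2 * Q * ‖cp h l‖ := h2
      _ ≤ 2 * Q * (Q * V l) := mul_le_mul_of_nonneg_left h1 (by positivity)
      _ = 2 * (Q ^ 2 * V l) := by ring
      _ ≤ Q * (Q ^ 2 * V l) := mul_le_mul_of_nonneg_right (by linarith) (by positivity)
      _ = Q ^ 3 * V l := by ring
  · have h1 : ‖k‖ ≤ 4 * Q * ‖kG a.1 k‖ := by
      refine le_ncp fun l => ?_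
      have h2 := (ck (cp k l)).1
      rw [← ek l] at h2
      exact h2.trans (mul_le_mul_of_nonneg_left (norm_le_pi_norm _ l) (by positivity))
    calc k0 ≤ ‖k‖ := hk1
      _ ≤ 4 * Q * ‖kG a.1 k‖ := h1
      _ ≤ Q * Q * ‖kG a.1 k‖ := by
        refine mul_le_mul_of_nonneg_right ?_ (norm_nonneg _)
        exact mul_le_mul_of_nonneg_right (by linarith) hQ0.le
      _ = Q ^ 2 * ‖kG a.1 k‖ := by ring
  · have h1 : ‖kG a.1 k‖ ≤ 4 * Q * ‖k‖ := by
      refine (pi_norm_le_iff_of_nonneg (by positivity)).2 fun l => ?_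
      have h2 := (ck (cp k l)).2
      rw [← ek l] at h2
      exact h2.trans (mul_le_mul_of_nonneg_left (ncp_le k l) (by positivity))
    calc ‖kG a.1 k‖ ≤ 4 * Q * ‖k‖ := h1
      _ ≤ 4 * Q * (2 * k0) := mul_le_mul_of_nonneg_left hk2 (by positivity)
      _ = 8 * Q * k0 := by ring
      _ ≤ Q * Q * k0 := by
        refine mul_le_mul_of_nonneg_right ?_ (by linarith)
        exact mul_le_mul_of_nonneg_right (by linarith) hQ0.le
      _ = Q ^ 2 * k0 := by ring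

end Pool.Agent.F5H.BC.H20
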