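import Pool.Agent.Helper20_F5H.FXA
import Pool.Agent.Helper10_F5H.FR
import Pool.Agent.Helper9_F5H.Du1
import Pool.Agent.Helper46_F5N.DU2

/-!
MP_f5cbfa_nt, block N, row FXA: closed.
-/

set_option autoImplicit false

namespace Pool.Agent.F5H.BN.H20

/-- FXA -/
theorem fxa : FXAStmt :=
  fxa_of Pool.Agent.F5H.H9.du1 Pool.Agent.Helper46_F5N.du2 Pool.Agent.F5H.BN.H10.fr_stmt

end Pool.Agent.F5H.BN.H20
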