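import Pool.Agent.Helper20_F5H.WIN

/-!
MP_f5cbfa_nt, block N, row FXA, second half: symmetry of `NR` under the permutations of the three
points.
-/

set_option autoImplicit false

open MeasureTheory Filter Topology
open scoped ENNReal

namespace Pool.Agent.F5H.BN.H20

open Pool.Agent.BTL Pool.Agent.F5S Pool.Agent.F5H Pool.Agent.Helper48_F5

/-- exchange of the first two points, lattice -/
def z01 : Z6 ≃ Z6 where
  toFun x := (x.2.1, x.1, x.2.2)
  invFun x := (x.2.1, x.1, x.2.2)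
  left_inv _ := rfl
  right_inv _ := rfl

/-- exchange of the last two points, lattice -/
def z12 : Z6 ≃ Z6 where
  toFun x := (x.1, x.2.2, x.2.1)
  invFun x := (x.1, x.2.2, x.2.1)
  left_inv _ := rfl
  right_inv _ := rfl

/-- exchange of the first two points -/
def m01 : R6 ≃ᵐ R6 :=
  (MeasurableEquiv.prodAssoc.symm).trans
    ((MeasurableEquiv.prodCongr MeasurableEquiv.prodComm (MeasurableEquiv.refl _)).trans
      MeasurableEquiv.prodAssoc)

/-- exchange of the last two points -/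
def m12 : R6 ≃ᵐ R6 := MeasurableEquiv.prodCongr (MeasurableEquiv.refl _) MeasurableEquiv.prodComm

theorem m01_apply (x : R6) : m01 x = (x.2.1, x.1, x.2.2) := rfl

theorem m12_apply (x : R6) : m12 x = (x.1, x.2.2, x.2.1) := rfl

theorem mp12 : MeasurePreserving m12 (volume : Measure R6) volume :=
  (MeasurePreserving.id (volume : Measure (ℝ × ℝ))).prod
    (Measure.measurePreserving_swap (μ := (volume : Measure (ℝ × ℝ)))
      (ν := (volume : Measure (ℝ × ℝ))))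

theorem mp01 : MeasurePreserving m01 (volume : Measure R6) volume := by
  have h1 : MeasurePreserving (MeasurableEquiv.prodAssoc : ((ℝ × ℝ) × (ℝ × ℝ)) × (ℝ × ℝ) ≃ᵐ R6)
      volume volume :=
    measurePreserving_prodAssoc (volume : Measure (ℝ × ℝ)) (volume : Measure (ℝ × ℝ))
      (volume : Measure (ℝ × ℝ))
  have h2 : MeasurePreserving (MeasurableEquiv.prodCongr MeasurableEquiv.prodComm
      (MeasurableEquiv.refl _) : ((ℝ × ℝ) × (ℝ × ℝ)) × (ℝ × ℝ) ≃ᵐ ((ℝ × ℝ) × (ℝ × ℝ)) × (ℝ × ℝ))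
      volume volume :=
    (Measure.measurePreserving_swap (μ := (volume : Measure (ℝ × ℝ)))
      (ν := (volume : Measure (ℝ × ℝ)))).prod (MeasurePreserving.id (volume : Measure (ℝ × ℝ)))
  exact h1.comp (h2.comp (h1.symm _))

theorem norm_of_perm {v v' : R6} (σ : Equiv.Perm (Fin 3)) (hv : ∀ l, t3 v' l = t3 v (σ l)) :
    ‖v'‖ = ‖v‖ := by
  refine le_antisymm (le_nt3 fun l => ?_) (le_nt3 fun l => ?_)
  · rw [hv]; exact nt3_le v _
  · have := hv (σ.symm l)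
    rw [Equiv.apply_symm_apply] at this
    rw [← this]; exact nt3_le v' _

theorem WN_perm {P T : ℝ} {A : ℝ × ℝ × ℝ} {h v h' v' : R6} (σ : Equiv.Perm (Fin 3))
    (hh : ∀ l, t3 h' l = t3 h (σ l)) (hv : ∀ l, t3 v' l = t3 v (σ l)) (w : WN P T A h v) :
    WN P T A h' v' := by
  obtain ⟨D, hD, hw⟩ := w
  refine ⟨D, fun l => ?_, fun i j => ?_⟩
  · rw [hv, hh]; exact hD (σ l)
  · rw [norm_of_perm σ hv, hv, hv, hh, hh]; exact hw (σ i) (σ j)

theorem NR_perm {P T R₁ : ℝ} {A : ℝ × ℝ × ℝ} {h v m h' v' m' : R6} (σ : Equiv.Perm (Fin 3))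
    (hh : ∀ l, t3 h' l = t3 h (σ l)) (hv : ∀ l, t3 v' l = t3 v (σ l))
    (hm : ∀ l, t3 m' l = t3 m (σ l)) (w : NR P T R₁ A h v m) : NR P T R₁ A h' v' m' := by
  refine ⟨fun l => ?_, fun i j => ?_, fun i j hij => ?_, ?_, fun hP => ?_⟩
  · have := w.an (σ l)
    simp only [AW] at this ⊢
    rw [hm, hh]; exact this
  · rw [hm, hm, hh, hh]; exact w.tb (σ i) (σ j)
  · rw [hm, hm]
    exact w.dd (σ i) (σ j) fun e => hij (σ.injective e)
  · obtain ⟨ν, h1, h2⟩ := w.ry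
    refine ⟨ν, h1, fun l => ?_⟩
    rw [hv, hm]; exact h2 (σ l)
  · rw [norm_of_perm σ hv] at hP
    exact WN_perm σ hh hv (w.wn hP)

/-- the summand -/
noncomputable def ff (P T R₁ : ℝ) (A : ℝ × ℝ × ℝ) (h : Z6) : ENNReal :=
  ∑' v : Z6, volume {m : R6 | NR P T R₁ A (r3 h) (r3 v) m}

theorem t01 (x : R6) (l : Fin 3) : t3 (x.2.1, x.1, x.2.2) l = t3 x (Equiv.swap 0 1 l) := by
  fin_cases l
  · simp [t3]
  · simp [t3]
  · have : (Equiv.swap (0 : Fin 3) 1) 2 = 2 := by decide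
    simp [t3, this]

theorem t12 (x : R6) (l : Fin 3) : t3 (x.1, x.2.2, x.2.1) l = t3 x (Equiv.swap 1 2 l) := by
  fin_cases l
  · have : (Equiv.swap (1 : Fin 3) 2) 0 = 0 := by decide
    simp [t3, this]
  · simp [t3]
  · simp [t3]

theorem ff01 (P T R₁ : ℝ) (A : ℝ × ℝ × ℝ) (h : Z6) :
    ff P T R₁ A (z01 h) = ff P T R₁ A h := by
  unfold ff
  rw [← z01.tsum_eq]
  refine tsum_congr fun v => ?_
  have e : {m : R6 | NR P T R₁ A (r3 (z01 h)) (r3 (z01 v)) m} =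
      m01 ⁻¹' {m : R6 | NR P T R₁ A (r3 h) (r3 v) m} := by
    ext m
    constructor
    · intro w
      exact NR_perm (Equiv.swap 0 1) (fun l => t01 (r3 (z01 h)) l) (fun l => t01 (r3 (z01 v)) l)
        (fun l => t01 m l) w
    · intro w
      exact NR_perm (Equiv.swap 0 1) (fun l => t01 (r3 h) l) (fun l => t01 (r3 v) l)
        (fun l => t01 (m01 m) l) w
  rw [e]
  exact mp01.measure_preimage_equiv _

theorem ff12 (P T R₁ : ℝ) (A : ℝ × ℝ × ℝ) (h : Z6) :
    ff P T R₁ A (z12 h) = ff P T R₁ A h := by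
  unfold ff
  rw [← z12.tsum_eq]
  refine tsum_congr fun v => ?_
  have e : {m : R6 | NR P T R₁ A (r3 (z12 h)) (r3 (z12 v)) m} =
      m12 ⁻¹' {m : R6 | NR P T R₁ A (r3 h) (r3 v) m} := by
    ext m
    constructor
    · intro w
      exact NR_perm (Equiv.swap 1 2) (fun l => t12 (r3 (z12 h)) l) (fun l => t12 (r3 (z12 v)) l)
        (fun l => t12 m l) w
    · intro w
      exact NR_perm (Equiv.swap 1 2) (fun l => t12 (r3 h) l) (fun l => t12 (r3 v) l)
        (fun l => t12 (m12 m) l) w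
  rw [e]
  exact mp12.measure_preimage_equiv _

/-- the sum over every family with the sizes `a b c` is at most `B` -/
def Gd (f : Z6 → ENNReal) (g : ℤ × ℤ →+ ℂ) (B : ENNReal) (a b c : ℝ) : Prop :=
  ∀ H : Finset Z6, (∀ h ∈ H, (a / 2 < ‖g h.1‖ ∧ ‖g h.1‖ ≤ a) ∧
    (b / 2 < ‖g h.2.1‖ ∧ ‖g h.2.1‖ ≤ b) ∧ (c / 2 < ‖g h.2.2‖ ∧ ‖g h.2.2‖ ≤ c)) →
    ∑ h ∈ H, f h ≤ B

theorem Gd_01 {f : Z6 → ENNReal} (hf : ∀ h, f (z01 h) = f h) {g : ℤ × ℤ →+ ℂ} {B : ENNReal}
    {a b c : ℝ} (w : Gd f g B a b c) : Gd f g B b a c := by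
  intro H hH
  have h1 := w (H.map z01.toEmbedding) (by
    intro h hh
    rw [Finset.mem_map] at hh
    obtain ⟨x, hx, rfl⟩ := hh
    obtain ⟨h1, h2, h3⟩ := hH x hx
    exact ⟨h2, h1, h3⟩)
  rw [Finset.sum_map] at h1
  refine le_trans (le_of_eq ?_) h1
  exact Finset.sum_congr rfl fun x _ => (hf x).symm

theorem Gd_12 {f : Z6 → ENNReal} (hf : ∀ h, f (z12 h) = f h) {g : ℤ × ℤ →+ ℂ} {B : ENNReal}
    {a b c : ℝ} (w : Gd f g B a b c) : Gd f g B a c b := by
  intro H hH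
  have h1 := w (H.map z12.toEmbedding) (by
    intro h hh
    rw [Finset.mem_map] at hh
    obtain ⟨x, hx, rfl⟩ := hh
    obtain ⟨h1, h2, h3⟩ := hH x hx
    exact ⟨h1, h3, h2⟩)
  rw [Finset.sum_map] at h1
  refine le_trans (le_of_eq ?_) h1
  exact Finset.sum_congr rfl fun x _ => (hf x).symm

/-- sorting -/
theorem sort3 {G S : ℝ → ℝ → ℝ → Prop} (g1 : ∀ a b c, G a b c → G b a c)
    (g2 : ∀ a b c, G a b c → G a c b) (s1 : ∀ a b c, S a b c → S b a c)
    (s2 : ∀ a b c, S a b c → S a c b) (base : ∀ a b c, S a b c → b ≤ a → c ≤ b → G a b c) :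
    ∀ a b c, S a b c → G a b c := by
  intro a b c h
  rcases le_total a b with hab | hab
  · rcases le_total b c with hbc | hbc
    · -- c ≥ b ≥ a
      exact g1 _ _ _ (g2 _ _ _ (g1 _ _ _ (base c b a
        (s1 _ _ _ (s2 _ _ _ (s1 _ _ _ h))) hbc hab)))
    · rcases le_total a c with hac | hac
      · -- b ≥ c ≥ a
        exact g1 _ _ _ (g2 _ _ _ (base b c a (s2 _ _ _ (s1 _ _ _ h)) hbc hac))
      · -- b ≥ a ≥ c
        exact g1 _ _ _ (base b a c (s1 _ _ _ h) hab hac)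
  · rcases le_total b c with hbc | hbc
    · rcases le_total a c with hac | hac
      · -- c ≥ a ≥ b
        exact g2 _ _ _ (g1 _ _ _ (base c a b (s1 _ _ _ (s2 _ _ _ h)) hac hab))
      · -- a ≥ c ≥ b
        exact g2 _ _ _ (base a c b (s2 _ _ _ h) hac hbc)
    · exact base a b c h hab hbc

end Pool.Agent.F5H.BN.H20
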