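import Pool.Agent.Helper48_F5.Est

/-!
MP_f5cbfa_nt, block N, row WIN: exact identities.  `b` midpoint of the two points, `v` their
difference, `A0`, `A1` the two forms, `Ab` their mean, `B` their difference, `E = B + 2 lam Ab`,
`y = v - lam b`.
-/

set_option autoImplicit false

namespace Pool.Agent.F5H.BN.H20

open Pool.Agent.BTL Pool.Agent.F5S Pool.Agent.Helper48_F5

/-- the mean -/
noncomputable def Ab (A0 A1 : ℝ × ℝ × ℝ) : ℝ × ℝ × ℝ := (1 / 2 : ℝ) • (A0 + A1)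

/-- `E = B + 2 lam Ab` -/
noncomputable def Ee (lam : ℝ) (A0 A1 : ℝ × ℝ × ℝ) : ℝ × ℝ × ℝ := (A1 - A0) + (2 * lam) • Ab A0 A1

/-- `G = Ab + E / lam` -/
noncomputable def Gg (lam : ℝ) (A0 A1 : ℝ × ℝ × ℝ) : ℝ × ℝ × ℝ := Ab A0 A1 + lam⁻¹ • Ee lam A0 A1

theorem idE (A0 A1 : ℝ × ℝ × ℝ) (b v h : ℝ × ℝ) (lam t : ℝ)
    (H0 : qf A0 (b - (1 / 2 : ℝ) • v) + qf A0 h / 4 = t)
    (H1 : qf A1 (b + (1 / 2 : ℝ) • v) + qf A1 h / 4 = t) :
    qf (Ee lam A0 A1) b + qf (Ee lam A0 A1) h / 4 =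
      -2 * bl (Ab A0 A1) b (v - lam • b) - qf (A1 - A0) v / 4 + lam * qf (Ab A0 A1) h / 2 := by
  simp only [Ee, Ab, qf, bl, Prod.fst_add, Prod.snd_add, Prod.fst_sub, Prod.snd_sub, Prod.smul_fst,
    Prod.smul_snd, smul_eq_mul] at *
  linear_combination H1 - H0

theorem idP (A0 A1 : ℝ × ℝ × ℝ) (b v h : ℝ × ℝ) (lam : ℝ) (hl : lam ≠ 0) :
    bl (Gg lam A0 A1) v h =
      (bl A1 (b + (1 / 2 : ℝ) • v) h - bl A0 (b - (1 / 2 : ℝ) • v) h) +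
        2 * lam * bl (Ab A0 A1) b h + lam⁻¹ * bl (Ee lam A0 A1) (v - lam • b) h := by
  have e0 : lam⁻¹ * lam = 1 := inv_mul_cancel₀ hl
  have e1 : bl (Gg lam A0 A1) v h = bl (Ab A0 A1) v h + lam⁻¹ * bl (Ee lam A0 A1) v h := by
    simp only [Gg, bl_add_form, bl_smul_form]
  have e2 : bl (Ee lam A0 A1) v h = lam * bl (Ee lam A0 A1) b h +
      bl (Ee lam A0 A1) (v - lam • b) h := by
    simp only [bl, Prod.fst_sub, Prod.snd_sub, Prod.smul_fst, Prod.smul_snd, smul_eq_mul]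
    ring
  have e3 : bl (Ab A0 A1) v h + bl (Ee lam A0 A1) b h =
      (bl A1 (b + (1 / 2 : ℝ) • v) h - bl A0 (b - (1 / 2 : ℝ) • v) h) +
        2 * lam * bl (Ab A0 A1) b h := by
    simp only [Ee, Ab, bl, Prod.fst_add, Prod.snd_add, Prod.fst_sub, Prod.snd_sub, Prod.smul_fst,
      Prod.smul_snd, smul_eq_mul]
    ring
  rw [e1, e2]
  linear_combination e3 + bl (Ee lam A0 A1) b h * e0

theorem idX (A0 A1 : ℝ × ℝ × ℝ) (b v h : ℝ × ℝ) (lam : ℝ) :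
    (1 - lam ^ 2 / 2) * bl (Ab A0 A1) b h =
      (bl A1 (b + (1 / 2 : ℝ) • v) h + bl A0 (b - (1 / 2 : ℝ) • v) h) / 2 +
        lam * bl (Ab A0 A1) (v - lam • b) h / 2 - bl (Ee lam A0 A1) v h / 4 := by
  simp only [Ee, Ab, bl, Prod.fst_add, Prod.snd_add, Prod.fst_sub, Prod.snd_sub, Prod.smul_fst,
    Prod.smul_snd, smul_eq_mul]
  ring

theorem idV (A0 A1 : ℝ × ℝ × ℝ) (b v h : ℝ × ℝ) (lam t : ℝ) (hl : lam ≠ 0)
    (H0 : qf A0 (b - (1 / 2 : ℝ) • v) + qf A0 h / 4 = t)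
    (H1 : qf A1 (b + (1 / 2 : ℝ) • v) + qf A1 h / 4 = t) :
    qf (Gg lam A0 A1) v = lam ^ 2 * t + lam ^ 2 * qf (Ab A0 A1) h / 4 +
      (qf (Ab A0 A1) (v - lam • b) - lam ^ 2 * qf (Ab A0 A1) v / 4 -
        lam ^ 2 * bl (A1 - A0) b v / 2 - lam * qf (Ee lam A0 A1) h / 4 -
        lam * qf (A1 - A0) v / 4 + 2 * bl (Ee lam A0 A1) b (v - lam • b) +
        lam⁻¹ * qf (Ee lam A0 A1) (v - lam • b)) := by
  have e0 : lam⁻¹ * lam = 1 := inv_mul_cancel₀ hl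
  have hE := idE A0 A1 b v h lam t H0 H1
  have e1 : qf (Gg lam A0 A1) v = qf (Ab A0 A1) v + lam⁻¹ * qf (Ee lam A0 A1) v := by
    simp only [Gg, ← bl_self, bl_add_form, bl_smul_form]
  have e2 : qf (Ee lam A0 A1) v = lam ^ 2 * qf (Ee lam A0 A1) b +
      2 * lam * bl (Ee lam A0 A1) b (v - lam • b) + qf (Ee lam A0 A1) (v - lam • b) := by
    simp only [qf, bl, Prod.fst_sub, Prod.snd_sub, Prod.smul_fst, Prod.smul_snd, smul_eq_mul]
    ring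
  have e3 : qf (Ab A0 A1) v = lam ^ 2 * qf (Ab A0 A1) b + 2 * lam * bl (Ab A0 A1) b (v - lam • b) +
      qf (Ab A0 A1) (v - lam • b) := by
    simp only [qf, bl, Prod.fst_sub, Prod.snd_sub, Prod.smul_fst, Prod.smul_snd, smul_eq_mul]
    ring
  have e4 : qf (Ab A0 A1) b + qf (Ab A0 A1) h / 4 + qf (Ab A0 A1) v / 4 +
      bl (A1 - A0) b v / 2 = t := by
    simp only [Ab, qf, bl, Prod.fst_add, Prod.snd_add, Prod.fst_sub, Prod.snd_sub, Prod.smul_fst,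
      Prod.smul_snd, smul_eq_mul] at *
    linear_combination (H0 + H1) / 2
  have e5 : lam⁻¹ * (lam ^ 2 * qf (Ee lam A0 A1) b) = lam * qf (Ee lam A0 A1) b := by
    linear_combination lam * qf (Ee lam A0 A1) b * e0
  have e6 : lam⁻¹ * (2 * lam * bl (Ee lam A0 A1) b (v - lam • b)) =
      2 * bl (Ee lam A0 A1) b (v - lam • b) := by
    linear_combination 2 * bl (Ee lam A0 A1) b (v - lam • b) * e0
  have e7 : qf (Gg lam A0 A1) v = qf (Ab A0 A1) v + (lam * qf (Ee lam A0 A1) b +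
      2 * bl (Ee lam A0 A1) b (v - lam • b) + lam⁻¹ * qf (Ee lam A0 A1) (v - lam • b)) := by
    rw [e1, e2, mul_add, mul_add, e5, e6]
  rw [e7]
  linear_combination e3 + lam * hE + lam ^ 2 * e4

end Pool.Agent.F5H.BN.H20
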